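import Pool.Agent.Lib.RkP.Sub

/-!
# The break sets of `G` and of its subgroup `tor G C (p ^ e)` agree
-/

namespace Pool.Agent.Lib.RkP

open Pool.Agent.Lib.C8da183 Pool.Agent.Lib.RkQ
open scoped Classical

variable {V : Type*} [AddCommGroup V] [Module ℚ V]
variable {G C : AddSubgroup V} {p e n' : ℕ}

namespace PD

/-- The `p`-part of the index is the same in `G` and in the subgroup. -/
theorem fact_eq (D : PD G C p e n') {S : AddSubgroup V} (hCS : C ≤ S) (hSG : S ≤ G) :
    (S.relIndex G).factorization p =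
      ((S ⊓ tor G C (p ^ e)).relIndex (tor G C (p ^ e))).factorization p := by
  set H := tor G C (p ^ e) with hH
  have h1 : (S ⊓ H).relIndex H * H.relIndex G = (S ⊓ H).relIndex G :=
    AddSubgroup.relIndex_mul_relIndex _ _ _ inf_le_right tor_le
  have h2 : (S ⊓ H).relIndex S * S.relIndex G = (S ⊓ H).relIndex G :=
    AddSubgroup.relIndex_mul_relIndex _ _ _ inf_le_left hSG
  have h3 : (S ⊓ H).relIndex S ∣ n' := by
    rw [AddSubgroup.inf_relIndex_left, ← D.relIndex_G, ← hH,
      ← AddSubgroup.relIndex_addSubgroupOf (H := H) hSG]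
    exact AddSubgroup.relIndex_dvd_index_of_normal _ _
  have hSG0 : S.relIndex G ≠ 0 := fun h => D.hn0
    (Nat.eq_zero_of_zero_dvd (h ▸ AddSubgroup.relIndex_dvd_of_le_left G hCS))
  have hS0 : (S ⊓ H).relIndex S ≠ 0 := fun h => by
    rw [h, zero_dvd_iff] at h3
    exact D.n'pos.ne' h3
  have hprod : (S ⊓ H).relIndex H * n' = (S ⊓ H).relIndex S * S.relIndex G := by
    rw [h2, ← h1, ← D.relIndex_G]
  have hH0 : (S ⊓ H).relIndex H ≠ 0 := fun h => by
    rw [h, zero_mul] at hprod
    exact mul_ne_zero hS0 hSG0 hprod.symm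
  have hpn : ¬ p ∣ n' := (D.hp.coprime_iff_not_dvd).mp D.cop.symm
  have f1 : n'.factorization p = 0 := Nat.factorization_eq_zero_of_not_dvd hpn
  have f2 : ((S ⊓ H).relIndex S).factorization p = 0 :=
    Nat.factorization_eq_zero_of_not_dvd fun h => hpn (h.trans h3)
  have h4 := congrArg (fun m : ℕ => m.factorization p) hprod
  simp only [Nat.factorization_mul hH0 D.n'pos.ne', Nat.factorization_mul hS0 hSG0,
    Finsupp.add_apply, f1, f2, add_zero, zero_add] at h4
  exact h4.symm

theorem fact_up (D : PD G C p e n') (x : V) :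
    ((C ⊔ up (tor G C (p ^ e)) x).relIndex (tor G C (p ^ e))).factorization p =
      ((C ⊔ up G x).relIndex G).factorization p := by
  have h1 : C ⊔ up G x ≤ G := sup_le D.hC.le up_le
  rw [D.fact_eq le_sup_left h1,
    sup_inf_assoc_of_le _ D.C_le, up_sub tor_le D.n'pos D.n'_smul x, inf_comm]

theorem fact_notLE (D : PD G C p e n') (x : V) :
    ((C ⊔ notLE (tor G C (p ^ e)) x).relIndex (tor G C (p ^ e))).factorization p =
      ((C ⊔ notLE G x).relIndex G).factorization p := by
  have h1 : C ⊔ notLE G x ≤ G := sup_le D.hC.le inf_le_left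
  rw [D.fact_eq le_sup_left h1,
    sup_inf_assoc_of_le _ D.C_le, notLE_sub tor_le D.n'pos D.n'_smul x, inf_comm]

theorem up_nsmul {m : ℕ} (hm : 0 < m) (x : V) : up G (m • x) = up G x := by
  have hm0 : (m : ℚ) ≠ 0 := by exact_mod_cast hm.ne'
  ext y
  constructor
  · rintro ⟨h1, h2⟩
    refine ⟨h1, ?_⟩
    rw [nsmul_eq] at h2
    have := h2.smul_left (c := (m : ℚ)⁻¹) (inv_ne_zero hm0)
    rwa [smul_smul, inv_mul_cancel₀ hm0, one_smul] at this
  · rintro ⟨h1, h2⟩
    refine ⟨h1, ?_⟩
    rw [nsmul_eq]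
    exact h2.smul_left hm0

theorem notLE_nsmul {m : ℕ} (hm : 0 < m) (x : V) : notLE G (m • x) = notLE G x := by
  have hm0 : (m : ℚ) ≠ 0 := by exact_mod_cast hm.ne'
  have h : ∀ z : V, TypeLE G z G (m • x) ↔ TypeLE G z G x := by
    intro z
    rw [nsmul_eq]
    constructor
    · intro h
      have := h.smul_right (m : ℚ)⁻¹
      rwa [smul_smul, inv_mul_cancel₀ hm0, one_smul] at this
    · intro h
      exact h.smul_right _
  unfold notLE
  simp only [h]

theorem breaks_tor (D : PD G C p e n') : breaks (tor G C (p ^ e)) C p = breaks G C p := by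
  have h0 : (C.relIndex (tor G C (p ^ e))).factorization p = (C.relIndex G).factorization p := by
    rw [D.fact_eq le_rfl D.hC.le, inf_eq_left.2 D.C_le]
  ext s
  constructor
  · rintro (h | h | ⟨x, hx, hx0, h1, h2⟩)
    · exact Or.inl h
    · exact Or.inr (Or.inl (h.trans h0))
    · refine Or.inr (Or.inr ⟨x, tor_le hx, hx0, ?_, ?_⟩)
      · rw [← D.fact_up]
        exact h1
      · rw [← D.fact_notLE]
        exact h2
  · rintro (h | h | ⟨x, hx, hx0, h1, h2⟩)
    · exact Or.inl h
    · exact Or.inr (Or.inl (h.trans h0.symm))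
    · refine Or.inr (Or.inr ⟨n' • x, D.n'_smul x hx, ?_, ?_, ?_⟩)
      · rw [nsmul_eq]
        exact smul_ne_zero (by exact_mod_cast D.n'pos.ne') hx0
      · rw [D.fact_up, up_nsmul D.n'pos]
        exact h1
      · rw [D.fact_notLE, notLE_nsmul D.n'pos]
        exact h2

end PD

end Pool.Agent.Lib.RkP
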