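import Pool.Agent.Lib.C8da183.MaxFull

/-!
# The torsion of the groups `G / G(S)`
-/

namespace Pool.Agent.Lib.RkP

open Pool.Agent.Lib.C8da183

variable {V : Type*} [AddCommGroup V] [Module ℚ V]

/-- `G(S)`: the sum of the groups `G(τ)`, `τ` the type of an element of `S`. -/
def GS (G : AddSubgroup V) (S : Finset V) : AddSubgroup V := ⨆ x ∈ S, up G x

/-- For every finite set `S` of nonzero elements of `G` the group `G / G(S)` has at most `p ^ d`
elements `y` with `py = 0`, that is, the `p`-rank of its torsion subgroup is at most `d`. -/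
def TorCond (G : AddSubgroup V) (p d : ℕ) : Prop :=
  ∀ S : Finset V, (∀ x ∈ S, x ∈ G ∧ x ≠ 0) →
    Nat.card {y : G ⧸ (GS G S).addSubgroupOf G // p • y = 0} ≤ p ^ d

end Pool.Agent.Lib.RkP
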