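import Pool.Agent.Lib.RkQ.Main
import Pool.Agent.Lib.C8da183.Tower
import Pool.Agent.Lib.RkP.DefsT

/-!
# The rank condition in terms of the torsion of the groups `G / G(S)`
-/

namespace Pool.Agent.Lib.RkP

open Pool.Agent.Lib.C8da183 Pool.Agent.Lib.RkQ
open scoped Classical

set_option linter.unusedSectionVars false

variable {V : Type*} [AddCommGroup V] [Module ℚ V]
variable {G C : AddSubgroup V} {J : Type*} [Fintype J] [DecidableEq J] {b : J → V}
  {f : J → V →ₗ[ℚ] ℚ} {p : ℕ}

/-- The order of the `p`-torsion of `G / H`. -/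
theorem card_tor (hp : p.Prime) {H : AddSubgroup V} (hH : H ≤ G) :
    Nat.card {y : G ⧸ H.addSubgroupOf G // p • y = 0} * (pm p G).relIndex H =
      (pm p H).relIndex H := by
  set N : AddSubgroup V := G ⊓ H.comap (nsmulAddMonoidHom (α := V) p) with hN
  have hHN : H ≤ N := le_inf hH fun h hh => H.nsmul_mem hh p
  have h1 : Nat.card {y : G ⧸ H.addSubgroupOf G // p • y = 0} = H.relIndex N := by
    have h3 : (nsmulAddMonoidHom (α := G ⧸ H.addSubgroupOf G) p).ker =
        (N.addSubgroupOf G).map (QuotientAddGroup.mk' (H.addSubgroupOf G)) := by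
      ext y
      constructor
      · intro hy
        obtain ⟨⟨z, hz⟩, rfl⟩ := QuotientAddGroup.mk'_surjective _ y
        refine ⟨⟨z, hz⟩, ?_, rfl⟩
        rw [SetLike.mem_coe, AddSubgroup.mem_addSubgroupOf]
        refine ⟨hz, ?_⟩
        have hy' : p • (QuotientAddGroup.mk' (H.addSubgroupOf G) ⟨z, hz⟩) = 0 := hy
        rw [← map_nsmul, QuotientAddGroup.mk'_apply, QuotientAddGroup.eq_zero_iff,
          AddSubgroup.mem_addSubgroupOf] at hy'
        exact hy'
      · rintro ⟨⟨z, hz⟩, hz2, rfl⟩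
        rw [SetLike.mem_coe, AddSubgroup.mem_addSubgroupOf] at hz2
        change p • (QuotientAddGroup.mk' (H.addSubgroupOf G) ⟨z, hz⟩) = 0
        rw [← map_nsmul, QuotientAddGroup.mk'_apply, QuotientAddGroup.eq_zero_iff,
          AddSubgroup.mem_addSubgroupOf]
        exact hz2.2
    have h4 : Nat.card {y : G ⧸ H.addSubgroupOf G // p • y = 0} =
        Nat.card (nsmulAddMonoidHom (α := G ⧸ H.addSubgroupOf G) p).ker := rfl
    rw [h4, h3, ← AddSubgroup.relIndex_ker, QuotientAddGroup.ker_mk',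
      AddSubgroup.relIndex_addSubgroupOf inf_le_left]
  have hinj : Function.Injective (nsmulAddMonoidHom (α := V) p) := by
    rw [injective_iff_map_eq_zero]
    intro v hv
    change p • v = 0 at hv
    rw [nsmul_eq, smul_eq_zero] at hv
    rcases hv with h | h
    · exact absurd h (by exact_mod_cast hp.ne_zero)
    · exact h
  have h2 : (pm p H).relIndex (pm p N) = H.relIndex N :=
    AddSubgroup.relIndex_map_map_of_injective _ _ hinj
  have h5 : pm p N = pm p G ⊓ H := by
    ext v
    constructor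
    · rintro ⟨g, hg, rfl⟩
      exact ⟨⟨g, hg.1, rfl⟩, hg.2⟩
    · rintro ⟨⟨g, hg, rfl⟩, h⟩
      exact ⟨g, ⟨hg, h⟩, rfl⟩
  have h6 := AddSubgroup.relIndex_mul_relIndex (pm p H) (pm p G ⊓ H) H
    (by rw [← h5]; exact AddSubgroup.map_mono hHN) inf_le_right
  rw [h1, ← h2, h5, ← h6, AddSubgroup.inf_relIndex_right]

/-- indices of types at least one of the types of the elements of `S` -/
noncomputable def upS (G : AddSubgroup V) (b : J → V) (S : Finset V) : Finset J :=
  Finset.univ.filter fun k => ∃ x ∈ S, TypeLE G x G (b k)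

theorem mem_upS {S : Finset V} {k : J} : k ∈ upS G b S ↔ ∃ x ∈ S, TypeLE G x G (b k) := by
  simp [upS]

theorem GS_le {S : Finset V} : GS G S ≤ G := iSup₂_le fun _ _ => up_le

theorem b_mem_GS (R : Ref G C b f) {S : Finset V} {k : J} (hk : k ∈ upS G b S) {q : ℚ}
    (hq : q • b k ∈ C) : q • b k ∈ GS G S := by
  obtain ⟨x, hx, h⟩ := mem_upS.mp hk
  exact (le_iSup₂_of_le x hx le_rfl : up G x ≤ GS G S) ⟨R.le hq, h.smul_right _⟩

theorem coord_GS (R : Ref G C b f) {S : Finset V} {y : V} (hy : y ∈ GS G S) {k : J}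
    (hk : f k y ≠ 0) : k ∈ upS G b S := by
  have h : GS G S ≤ GU G f (upS G b S) := by
    refine iSup₂_le fun x hx z hz => ⟨hz.1, fun j hj => ?_⟩
    by_contra h
    exact hj (mem_upS.mpr ⟨x, hx, (R.mem_up_iff hz.1).mp hz j h⟩)
  by_contra hk'
  exact hk ((h hy).2 k hk')

theorem ref_GS (R : Ref G C b f) (S : Finset V) :
    Ref (GS G S) (C ⊓ GS G S) (fun k : {k // k ∈ upS G b S} => b k)
      (fun k : {k // k ∈ upS G b S} => f k) := by
  have hb : ∀ k : {k // k ∈ upS G b S}, b k ∈ GS G S := fun k => by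
    have := b_mem_GS R k.2 (q := 1) (by rw [one_smul]; exact R.mem k)
    rwa [one_smul] at this
  refine ⟨fun j k => ?_, fun g hg => ?_, inf_le_right, fun j => ⟨R.mem j, hb j⟩,
    fun c hc j => ⟨R.coord c hc.1 j, b_mem_GS R j.2 (R.coord c hc.1 j)⟩, ?_⟩
  · rw [R.dual]
    by_cases h : j = k
    · rw [if_pos h, if_pos (congrArg _ h)]
    · rw [if_neg h, if_neg fun h' => h (Subtype.ext h')]
  · conv_lhs => rw [R.expand g (GS_le hg)]
    refine Eq.trans ?_ (Finset.sum_coe_sort (upS G b S) (fun k => f k g • b k)).symm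
    symm
    refine Finset.sum_subset (Finset.subset_univ _) fun k _ hk => ?_
    by_contra h
    refine hk (coord_GS R hg (k := k) fun h0 => h ?_)
    rw [h0, zero_smul]
  · rw [AddSubgroup.inf_relIndex_right]
    intro h0
    apply R.fin
    exact AddSubgroup.relIndex_eq_zero_of_le_right GS_le h0

theorem NDiv_GS (R : Ref G C b f) {S : Finset V} {k : J} (hk : k ∈ upS G b S) :
    NDiv (C ⊓ GS G S) (b k) p ↔ NDiv C (b k) p := by
  constructor
  · rintro ⟨q, h1, h2⟩
    exact ⟨q, h1.1, fun h3 => h2 ⟨h3, b_mem_GS R hk h3⟩⟩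
  · rintro ⟨q, h1, h2⟩
    exact ⟨q, ⟨h1, b_mem_GS R hk h1⟩, fun h3 => h2 h3.1⟩

theorem pm_GS (R : Ref G C b f) (hp : p.Prime) (S : Finset V) :
    (pm p (GS G S)).relIndex (GS G S) = p ^ ((upS G b S).filter fun k => NDiv C (b k) p).card := by
  rw [relIndex_pm_G (ref_GS R S) hp]
  congr 1
  have h : ((upS G b S).filter fun k => NDiv C (b k) p) =
      (Jp (C ⊓ GS G S) (fun k : {k // k ∈ upS G b S} => b k) p).map
        (Function.Embedding.subtype _) := by
    ext k
    rw [Finset.mem_filter, Finset.mem_map]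
    constructor
    · rintro ⟨h1, h2⟩
      exact ⟨⟨k, h1⟩, mem_Jp.mpr ((NDiv_GS R h1).mpr h2), rfl⟩
    · rintro ⟨j, hj, rfl⟩
      exact ⟨j.2, (NDiv_GS R j.2).mp
        ((mem_Jp (b := fun k : {k // k ∈ upS G b S} => b k)).mp hj)⟩
  rw [h, Finset.card_map]

theorem rankCond_iff (R : Ref G C b f) (hC : IsRegulating G C) (hp : p.Prime) {d : ℕ} :
    RankCond G C b p d ↔ TorCond G p d := by
  have : Fact p.Prime := ⟨hp⟩
  have := finite_Mp R hp
  constructor
  · intro h S hS
    set s : Finset J := (upS G b S).filter fun k => NDiv C (b k) p with hs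
    have h1 := h s fun j hj => (Finset.mem_filter.mp hj).2
    have h2 := card_tor (G := G) hp (GS_le (G := G) (S := S))
    rw [pm_GS R hp S] at h2
    have h3 : (⨆ j ∈ s, comp C (b j) ⊔ sharp G (b j)) ≤ GS G S := by
      refine iSup₂_le fun j hj => sup_le ?_ ?_
      · rintro v ⟨hvC, hv⟩
        have hv' : v ∈ Submodule.span ℚ {b j} := hv
        obtain ⟨q, rfl⟩ := Submodule.mem_span_singleton.mp hv'
        exact b_mem_GS R (Finset.mem_filter.mp hj).1 hvC
      · obtain ⟨x, hx, hxj⟩ := mem_upS.mp (Finset.mem_filter.mp hj).1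
        exact (sharp_le_up.trans (up_anti hxj)).trans (le_iSup₂_of_le x hx le_rfl)
    rw [relIndex_eq R hp (h3.trans GS_le)] at h1
    rw [relIndex_eq R hp GS_le] at h2
    have h4 : p ^ Module.finrank (ZMod p) (sub p G (⨆ j ∈ s, comp C (b j) ⊔ sharp G (b j))) ≤
        p ^ Module.finrank (ZMod p) (sub p G (GS G S)) :=
      Nat.pow_le_pow_right hp.pos (Submodule.finrank_mono (sub_mono h3))
    have h5 := h1.trans (Nat.mul_le_mul_left _ h4)
    rw [← h2] at h5
    exact Nat.le_of_mul_le_mul_right h5 (pow_pos hp.pos _)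
  · intro h s hs
    obtain ⟨g, hg⟩ := exists_gen R p
    set S : Finset V := s.image b with hS
    have hSG : ∀ x ∈ S, x ∈ G ∧ x ≠ 0 := by
      intro x hx
      obtain ⟨j, _, rfl⟩ := Finset.mem_image.mp hx
      exact ⟨R.bG j, R.b_ne_zero j⟩
    have h2 := card_tor (G := G) hp (GS_le (G := G) (S := S))
    rw [pm_GS R hp S, relIndex_eq R hp GS_le] at h2
    set s' : Finset J := (upS G b S).filter fun k => NDiv C (b k) p with hs'
    have hss' : s ⊆ s' := fun j hj => Finset.mem_filter.mpr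
      ⟨mem_upS.mpr ⟨b j, Finset.mem_image_of_mem b hj, TypeLE.refl _ _⟩, hs j hj⟩
    set E : AddSubgroup V := ⨆ j ∈ s, comp C (b j) ⊔ sharp G (b j) with hE
    have hEG : E ≤ G := by
      refine iSup₂_le fun j _ => sup_le ?_ sharp_le
      exact inf_le_left.trans R.le
    set vd : {j // j ∈ s' \ s} → Mp p G := fun j => cls p (R.le (hg.mem j)) with hvd
    set T : Submodule (ZMod p) (Mp p G) := sub p G E ⊔ Submodule.span (ZMod p) (Set.range vd)
      with hT
    have hEpre : E ≤ pre p G T := by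
      intro v hv
      rw [mem_pre (hEG hv)]
      exact (le_sup_left : sub p G E ≤ T) (mem_sub _ hv)
    have hpmT : pm p G ≤ pre p G T := pm_le_pre
    have hcompE : ∀ j ∈ s, comp C (b j) ≤ E := fun j hj =>
      le_sup_left.trans (le_iSup₂_of_le j hj le_rfl : comp C (b j) ⊔ sharp G (b j) ≤ E)
    have hGST : GS G S ≤ pre p G T := by
      refine iSup₂_le fun x hx y hy => ?_
      obtain ⟨j, hj, rfl⟩ := Finset.mem_image.mp hx
      obtain ⟨c, hc, u, hu, e⟩ := AddSubgroup.mem_sup.mp
        (hC.up_le_sup (R.bG j) (R.b_ne_zero j) hy)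
      rw [← e]
      refine AddSubgroup.add_mem _ ?_ (hEpre
        ((le_sup_right.trans (le_iSup₂_of_le j hj le_rfl :
          comp C (b j) ⊔ sharp G (b j) ≤ E) : sharp G (b j) ≤ E) hu))
      have hcup : c ∈ up G (b j) := by
        have : c = y - u := by rw [← e]; abel
        rw [this]
        exact AddSubgroup.sub_mem _ hy (sharp_le_up hu)
      refine hg.mem_of R hp ((AddSubgroup.map_mono R.le).trans hpmT) hc fun k hk hN => ?_
      by_cases hks : k ∈ s
      · refine hEpre (hcompE k hks ⟨hg.mem k, ?_⟩)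
        exact Submodule.smul_mem _ _ (Submodule.subset_span rfl)
      · rw [mem_pre (R.le (hg.mem k))]
        refine (le_sup_right : Submodule.span (ZMod p) (Set.range vd) ≤ T)
          (Submodule.subset_span ⟨⟨k, Finset.mem_sdiff.mpr ⟨Finset.mem_filter.mpr
            ⟨mem_upS.mpr ⟨b j, hx, (R.mem_up_iff (R.le hc)).mp hcup k hk⟩, hN⟩, hks⟩⟩, rfl⟩)
    have hfr : Module.finrank (ZMod p) (sub p G (GS G S)) ≤
        Module.finrank (ZMod p) (sub p G E) + (s' \ s).card := by
      refine (Submodule.finrank_mono (sub_le_of hGST)).trans ?_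
      refine (Submodule.finrank_add_le_finrank_add_finrank _ _).trans ?_
      refine Nat.add_le_add_left ?_ _
      have := finrank_range_le_card (R := ZMod p) vd
      rwa [Fintype.card_coe] at this
    have h6 := h S hSG
    rw [relIndex_eq R hp hEG]
    have h7 : (s' \ s).card + s.card = s'.card := Finset.card_sdiff_add_card_eq_card hss'
    have h8 : p ^ (s' \ s).card * p ^ s.card ≤ p ^ (s' \ s).card *
        (p ^ d * p ^ Module.finrank (ZMod p) (sub p G E)) := by
      rw [← pow_add, h7, ← h2]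
      calc Nat.card {y : G ⧸ (GS G S).addSubgroupOf G // p • y = 0} *
            p ^ Module.finrank (ZMod p) (sub p G (GS G S))
          ≤ p ^ d * p ^ (Module.finrank (ZMod p) (sub p G E) + (s' \ s).card) :=
            Nat.mul_le_mul h6 (Nat.pow_le_pow_right hp.pos hfr)
        _ = _ := by rw [pow_add]; ring
    exact Nat.le_of_mul_le_mul_left h8 (pow_pos hp.pos _)

end Pool.Agent.Lib.RkP
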