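import Pool.Agent.Lib.RkP.Final
import Pool.Agent.Lib.RkP.Tor

/-!
# The break sets do not depend on the regulating subgroup
-/

namespace Pool.Agent.Lib.RkP

open Pool.Agent.Lib.C8da183 Pool.Agent.Lib.RkQ
open scoped Classical

set_option linter.unusedSectionVars false

variable {V : Type*} [AddCommGroup V] [Module ℚ V]
variable {G C C0 K : AddSubgroup V} {J : Type*} [Fintype J] [DecidableEq J] {b : J → V}
  {f : J → V →ₗ[ℚ] ℚ} {p : ℕ}

theorem DU_inf_GU {D : V → AddSubgroup V} (hD : Fam G D) (R : Ref G C0 b f) {U : Finset J}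
    (hU : IsUp G b U) : ∀ W, IsUp G b W → U ⊆ W →
      Fam.DU D b W ⊓ GU G f U = Fam.DU D b U := by
  intro W
  induction W using Finset.strongInduction with
  | H W ih =>
    intro hW hUW
    by_cases h : W = U
    · rw [h]
      exact inf_eq_left.mpr (hD.DU_le_GU R hU)
    · have hne : (W \ U).Nonempty := by
        rw [Finset.sdiff_nonempty]
        exact fun h' => h (Finset.Subset.antisymm h' hUW)
      obtain ⟨k, hk, hmin⟩ := exists_isMin G b hne
      rw [Finset.mem_sdiff] at hk
      have hminW : IsMin G b W k := by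
        intro j hj hjk
        by_cases hjU : j ∈ U
        · exact absurd (hU j hjU k hjk) hk.2
        · exact hmin j (Finset.mem_sdiff.mpr ⟨hj, hjU⟩) hjk
      have hUdel : U ⊆ del G b W k := by
        intro j hj
        rw [mem_del]
        exact ⟨hUW hj, fun h' => hk.2 (hU j hj k h'.1)⟩
      have h1 := ih _ (del_ssubset hk.1) (hW.del hminW) hUdel
      rw [← h1]
      apply le_antisymm
      · rintro y ⟨hy, hyU⟩
        have hy' : y ∈ D (b k) ⊔ Fam.DU D b (del G b W k) := by
          rw [← hD.DU_eq R hk.1]; exact hy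
        obtain ⟨d, hd, c, hc, e⟩ := AddSubgroup.mem_sup.mp hy'
        have hB := hD.DU_le_GU R (hW.del hminW)
        have h4 : d ∈ D (b k) ⊓ GU G f (del G b W k) := by
          refine ⟨hd, ?_⟩
          have : d = y - c := by rw [← e]; abel
          change d ∈ GU G f _
          rw [this]
          exact AddSubgroup.sub_mem _ (GU_mono hUdel hyU) (hB hc)
        rw [hD.inf_GU R, AddSubgroup.mem_bot] at h4
        rw [h4, zero_add] at e
        exact ⟨by rw [← e]; exact hc, hyU⟩
      · exact inf_le_inf_right _ (by rw [hD.DU_eq R hk.1]; exact le_sup_right)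

theorem reg_inf_GU {D : V → AddSubgroup V} (hD : Fam G D) (R : Ref G C0 b f) {U : Finset J}
    (hU : IsUp G b U) :
    (⨆ x : {x : V // x ∈ G ∧ x ≠ 0}, D x) ⊓ GU G f U = Fam.DU D b U := by
  rw [hD.iSup_eq R]
  exact DU_inf_GU hD R hU Finset.univ (fun _ _ _ _ => Finset.mem_univ _) (Finset.subset_univ _)

theorem relIndex_sup_GU (hG : IsACD G) (R : Ref G C0 b f) (hK : IsRegulating G K)
    (hC : IsRegulating G C) {U : Finset J} (hU : IsUp G b U) :
    (K ⊔ GU G f U).relIndex G = (C ⊔ GU G f U).relIndex G := by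
  have h0 := hK.relIndex_eq hG hC
  have h5 : K.relIndex (GU G f U) = C.relIndex (GU G f U) ∧ K.relIndex (GU G f U) ≠ 0 := by
    obtain ⟨D, hD, eK⟩ := isRegulating_iff.mp hK
    obtain ⟨D', hD', eC⟩ := isRegulating_iff.mp hC
    have h1 := Fam.relIndex_DU hD hD' R U hU
    rw [← reg_inf_GU hD R hU, ← reg_inf_GU hD' R hU, ← eK, ← eC,
      AddSubgroup.inf_relIndex_right, AddSubgroup.inf_relIndex_right] at h1
    exact h1
  have h3 := AddSubgroup.relIndex_mul_relIndex K (GU G f U ⊔ K) G le_sup_right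
    (sup_le (GU_le U) hK.le)
  have h4 := AddSubgroup.relIndex_mul_relIndex C (GU G f U ⊔ C) G le_sup_right
    (sup_le (GU_le U) hC.le)
  rw [AddSubgroup.relIndex_sup_right] at h3 h4
  rw [h0.1, ← h4, h5.1] at h3
  rw [sup_comm K, sup_comm C]
  exact Nat.eq_of_mul_eq_mul_left (Nat.pos_of_ne_zero (h5.1 ▸ h5.2)) h3

theorem breaks_eq (hG : IsACD G) (hK : IsRegulating G K) (hC : IsRegulating G C) (p : ℕ) :
    breaks G K p = breaks G C p := by
  obtain ⟨J, _, _, b, f, R⟩ := hC.exists_ref hG
  have h1 : ∀ x, (K ⊔ up G x).relIndex G = (C ⊔ up G x).relIndex G := fun x => by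
    rw [up_eq_GU R]; exact relIndex_sup_GU hG R hK hC (isUp_upF x)
  have h2 : ∀ x, (K ⊔ notLE G x).relIndex G = (C ⊔ notLE G x).relIndex G := fun x => by
    rw [notLE_eq_GU R]; exact relIndex_sup_GU hG R hK hC (isUp_notLE x)
  unfold breaks
  simp only [h1, h2, (hK.relIndex_eq hG hC).1]

theorem exists_cyc_reg (hG : IsACD G) (R : Ref G C b f) (hC : IsRegulating G C) (hp : p.Prime)
    (h : TorCond G p 1) : ∃ K, IsRegulating G K ∧
      (nsmulAddMonoidHom (α := G ⧸ K.addSubgroupOf G) p).range.index ≤ p := by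
  obtain ⟨d, hd⟩ := exists_rank hG hC
  obtain ⟨K, hK, h6⟩ := (rank_le_iff hG R hC (fun q => if q = p then 1 else d q)).mpr
    (fun q hq => by
      by_cases hqp : q = p
      · subst hqp
        rw [if_pos rfl]
        exact (rankCond_iff R hC hq).mpr h
      · rw [if_neg hqp]
        exact (rank_le_iff hG R hC d).mp ⟨C, hC, fun q hq => (hd q hq).le⟩ q hq)
  have h7 := h6 p hp
  rw [if_pos rfl, pow_one] at h7
  exact ⟨K, hK, h7⟩

/-- (B) -/
theorem occurs_one (hG : IsACD G) (hC : IsRegulating G C) (hp : p.Prime) (h : TorCond G p 1)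
    {X : Type*} [AddCommGroup X] [Finite X] :
    Occurs G X p ↔ (Nat.card X).factorization p = (C.relIndex G).factorization p ∧
      ∀ k, (nsmulAddMonoidHom (α := X) (p ^ k)).range.index ≤
        p ^ gapSum (breaks G C p) ((C.relIndex G).factorization p) k := by
  obtain ⟨J, _, _, b, f, R⟩ := hC.exists_ref hG
  obtain ⟨K, hK, hcyc⟩ := exists_cyc_reg hG R hC hp h
  rw [← breaks_eq hG hK hC p]
  exact occurs_cyclic hG hC hp hK hcyc

end Pool.Agent.Lib.RkP
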