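import Pool.Agent.Lib.C8da183.MaxFull

/-!
# Definitions for the prime by prime determination
-/

namespace Pool.Agent.Lib.RkP

open Pool.Agent.Lib.C8da183

/-- `X / p ^ v X` for `v = v_p |X|`; for a finite abelian group `X` and a prime `p` this is
isomorphic to the `p`-primary component of `X`. -/
abbrev PPart (X : Type*) [AddCommGroup X] (p : ℕ) : Type _ :=
  X ⧸ (nsmulAddMonoidHom (α := X) (p ^ (Nat.card X).factorization p)).range

/-- The `p`-part of `X` is the `p`-part of a regulating quotient of `G`. -/
def Occurs {V : Type*} [AddCommGroup V] [Module ℚ V] (G : AddSubgroup V) (X : Type*)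
    [AddCommGroup X] (p : ℕ) : Prop :=
  ∃ C', IsRegulating G C' ∧ Nonempty (PPart (G ⧸ C'.addSubgroupOf G) p ≃+ PPart X p)

end Pool.Agent.Lib.RkP
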