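import Pool.Agent.Lib.RkP.Sub

/-!
# Gluing full subgroups at the primes
-/

namespace Pool.Agent.Lib.RkP

open Pool.Agent.Lib.C8da183 Pool.Agent.Lib.RkQ
open scoped Classical

set_option linter.unusedSectionVars false

variable {V : Type*} [AddCommGroup V] [Module ℚ V]
variable {G C : AddSubgroup V}

theorem crt' (x : V) (M : ℕ → ℕ) (L : ℕ → AddSubgroup V) (P : Finset ℕ)
    (hL : ∀ p ∈ P, pm (M p) G ≤ L p)
    (hM : ∀ p ∈ P, ∀ q ∈ P, p ≠ q → Nat.Coprime (M p) (M q))
    (h : ∀ p ∈ P, up G x ≤ L p ⊔ sharp G x) {y : V} (hy : y ∈ up G x) :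
    ∃ s ∈ sharp G x, ∀ p ∈ P, y - s ∈ L p := by
  induction P using Finset.induction_on with
  | empty => exact ⟨0, AddSubgroup.zero_mem _, fun p hp => absurd hp (Finset.notMem_empty p)⟩
  | insert q P' hq ih =>
    obtain ⟨s, hs, h1⟩ := ih (fun p hp => hL p (Finset.mem_insert_of_mem hp))
      (fun p hp r hr => hM p (Finset.mem_insert_of_mem hp) r (Finset.mem_insert_of_mem hr))
      (fun p hp => h p (Finset.mem_insert_of_mem hp))
    obtain ⟨l, hl, t, ht, e⟩ := AddSubgroup.mem_sup.mp (h q (Finset.mem_insert_self q P') hy)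
    have hcop : IsCoprime (M q : ℤ) ((∏ p ∈ P', M p : ℕ) : ℤ) := by
      rw [Nat.isCoprime_iff_coprime]
      refine Nat.Coprime.prod_right fun p hp => ?_
      refine hM q (Finset.mem_insert_self q P') p (Finset.mem_insert_of_mem hp) ?_
      rintro rfl
      exact hq hp
    obtain ⟨α, β, hab⟩ := hcop
    set N : ℕ := ∏ p ∈ P', M p with hN
    have hsG := sharp_le hs
    have htG := sharp_le ht
    refine ⟨(α * M q) • s + (β * N) • t, AddSubgroup.add_mem _ (AddSubgroup.zsmul_mem _ hs _)
      (AddSubgroup.zsmul_mem _ ht _), fun p hp => ?_⟩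
    rcases Finset.mem_insert.mp hp with rfl | hp'
    · have h2 : y - ((α * M p) • s + (β * N) • t) = l + (M p : ℤ) • (α • (t - s)) := by
        have h3 : (β * N) • t = t - (α * M p) • t := by
          rw [eq_sub_iff_add_eq, ← add_smul, add_comm, hab, one_smul]
        rw [h3, ← e, smul_smul, mul_comm (M p : ℤ) α, smul_sub]
        abel
      rw [h2]
      refine AddSubgroup.add_mem _ hl
        (hL p hp ⟨α • (t - s), G.zsmul_mem (G.sub_mem htG hsG) _, ?_⟩)
      change M p • (α • (t - s)) = _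
      rw [natCast_zsmul]
    · obtain ⟨K, hK⟩ : M p ∣ N := Finset.dvd_prod_of_mem _ hp'
      have h2 : y - ((α * M q) • s + (β * N) • t) = (y - s) + (M p : ℤ) • ((K * β) • (s - t)) := by
        have h3 : (α * M q) • s = s - (β * N) • s := by
          rw [eq_sub_iff_add_eq, ← add_smul, hab, one_smul]
        have h4 : (M p : ℤ) • ((K * β) • (s - t)) = (β * N) • s - (β * N) • t := by
          rw [smul_smul, ← smul_sub]
          congr 1
          rw [hK]; push_cast; ring
        rw [h3, h4]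
        abel
      rw [h2]
      refine AddSubgroup.add_mem _ (h1 p hp')
        (hL p hp ⟨((K : ℤ) * β) • (s - t), G.zsmul_mem (G.sub_mem hsG htG) _, ?_⟩)
      change M p • (((K : ℤ) * β) • (s - t)) = _
      rw [natCast_zsmul]

/-- The `p`-part of a regulating subgroup. -/
theorem good_of_reg (hG : IsACD G) (hC : IsRegulating G C) {p : ℕ} (hp : p.Prime)
    {K : AddSubgroup V} (hK : IsRegulating G K) :
    PD.Good G p ((C.relIndex G).factorization p)
      (K ⊔ pm (p ^ (C.relIndex G).factorization p) G) := by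
  set e := (C.relIndex G).factorization p with he
  refine ⟨sup_le hK.le pm_le, le_sup_right, ?_, fun x hx hx0 =>
    (hK.up_le_sup hx hx0).trans (sup_le_sup_right le_sup_left _)⟩
  have h0 := hK.relIndex_eq hG hC
  have hPof : (pm (p ^ e) G).addSubgroupOf G = (nsmulAddMonoidHom (α := G) (p ^ e)).range := by
    ext y
    rw [AddSubgroup.mem_addSubgroupOf]
    constructor
    · rintro ⟨z, hz, e1⟩
      exact ⟨⟨z, hz⟩, Subtype.ext e1⟩
    · rintro ⟨z, rfl⟩
      exact ⟨z, z.2, rfl⟩
  have h4 : (K.addSubgroupOf G).index = C.relIndex G := h0.1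
  have hC0 : C.relIndex G ≠ 0 := (hC.relIndex_eq hG hC).2
  have h3 := index_sup_range (K.addSubgroupOf G) (e := e)
    (n' := C.relIndex G / p ^ (C.relIndex G).factorization p) hp
    (Nat.coprime_ordCompl hp hC0).symm h0.2 (by
      rw [h4, he, Nat.ordProj_mul_ordCompl_eq_self])
  rw [h4, ← he] at h3
  unfold AddSubgroup.relIndex
  rw [AddSubgroup.addSubgroupOf_sup hK.le pm_le, hPof]
  exact h3

/-- Gluing. -/
theorem glue (hG : IsACD G) (hC : IsRegulating G C) (L : ℕ → AddSubgroup V)
    (hL : ∀ p, p.Prime → PD.Good G p ((C.relIndex G).factorization p) (L p)) :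
    ∃ K, IsRegulating G K ∧ ∀ p, p.Prime →
      K ⊔ pm (p ^ (C.relIndex G).factorization p) G = L p := by
  set n := C.relIndex G with hn
  have hn0 : n ≠ 0 := (hC.relIndex_eq hG hC).2
  set P := n.primeFactors with hP
  have hPp : ∀ p ∈ P, p.Prime := fun p hp => Nat.prime_of_mem_primeFactors hp
  set K : AddSubgroup V := G ⊓ ⨅ p : P, L p with hK
  have hKG : K ≤ G := inf_le_left
  have hKL : ∀ p ∈ P, K ≤ L p := fun p hp => inf_le_right.trans (iInf_le (fun p : P => L p) ⟨p, hp⟩)
  have hL0 : ∀ p, p.Prime → (L p).relIndex G ≠ 0 := fun p hp => by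
    rw [(hL p hp).idx]; exact pow_ne_zero _ hp.ne_zero
  have hK0 : K.relIndex G ≠ 0 := by
    have h1 : (⨅ p : P, L p).relIndex G ≠ 0 :=
      AddSubgroup.relIndex_iInf_ne_zero fun p => hL0 p (hPp p p.2)
    rw [← AddSubgroup.inf_relIndex_right, inf_comm] at h1
    exact h1
  have hup : ∀ x ∈ G, x ≠ 0 → up G x ≤ K ⊔ sharp G x := by
    intro x hx hx0 y hy
    obtain ⟨s, hs, h1⟩ := crt' (G := G) x (fun p => p ^ n.factorization p) L P
      (fun p hp => (hL p (hPp p hp)).pm_le)
      (fun p hp q hq hpq => ((Nat.coprime_primes (hPp p hp) (hPp q hq)).mpr hpq).pow _ _)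
      (fun p hp => (hL p (hPp p hp)).full x hx hx0) hy
    have h2 : y - s ∈ ⨅ p : P, L p := by
      rw [AddSubgroup.mem_iInf]
      exact fun p => h1 p p.2
    exact AddSubgroup.mem_sup.mpr ⟨y - s, ⟨G.sub_mem (up_le hy) (sharp_le hs), h2⟩, s, hs, by abel⟩
  have hfull : IsFull G K := isFull_iff.mpr ⟨hKG, hK0, hup⟩
  have hdvd : n ∣ K.relIndex G := by
    rw [← Nat.factorization_le_iff_dvd hn0 hK0]
    intro p
    by_cases hp : p ∈ P
    · have h1 := AddSubgroup.relIndex_dvd_of_le_left G (hKL p hp)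
      rw [(hL p (hPp p hp)).idx] at h1
      exact ((hPp p hp).pow_dvd_iff_le_factorization hK0).mp h1
    · rw [Finsupp.notMem_support_iff.mp (by rwa [Nat.support_factorization])]
      exact Nat.zero_le _
  have hreg : IsRegulating G K := by
    rw [isRegulating_iff_index hG hC hKG]
    exact ⟨Nat.dvd_antisymm (hfull.relIndex_dvd hG hC) hdvd, hup⟩
  refine ⟨K, hreg, fun p hp => ?_⟩
  have hg := good_of_reg hG hC hp hreg
  by_cases hpP : p ∈ P
  · have hle : K ⊔ pm (p ^ n.factorization p) G ≤ L p := sup_le (hKL p hpP) (hL p hp).pm_le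
    have h1 := AddSubgroup.relIndex_mul_relIndex _ _ G hle (hL p hp).le
    rw [hg.idx, (hL p hp).idx] at h1
    have h2 : (K ⊔ pm (p ^ n.factorization p) G).relIndex (L p) = 1 :=
      Nat.eq_of_mul_eq_mul_right (pow_pos hp.pos (n.factorization p)) (by rw [h1, one_mul])
    rw [AddSubgroup.relIndex_eq_one] at h2
    exact le_antisymm hle h2
  · have h1 : n.factorization p = 0 :=
      Finsupp.notMem_support_iff.mp (by rwa [Nat.support_factorization])
    have hgi : G ≤ K ⊔ pm (p ^ n.factorization p) G := by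
      rw [← AddSubgroup.relIndex_eq_one, hg.idx, h1, pow_zero]
    have hLi : G ≤ L p := by
      rw [← AddSubgroup.relIndex_eq_one, (hL p hp).idx, h1, pow_zero]
    exact le_antisymm (hg.le.trans hLi) ((hL p hp).le.trans hgi)

end Pool.Agent.Lib.RkP
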