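import Mathlib
import Pool.Agent.Lib.RkQ.Iso2

/-!
# Finite abelian groups with isomorphic primary quotients are isomorphic

The exponents of the `p`-primary cyclic summands of `X` are determined by the indices of the groups
`p ^ k X`, and these are the indices of the groups `p ^ k (X / p ^ v X)` for `k ≤ v`.
-/

namespace Pool.Agent.Lib.RkP

open Pool.Agent.Lib.RkQ.Iso2

/-- The sum of the numbers `min k x`. -/
def mk (k : ℕ) (s : Multiset ℕ) : ℕ := (s.map fun x => min k x).sum

theorem mk_succ (k : ℕ) (s : Multiset ℕ) :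
    mk (k + 1) s = mk k s + (s.filter fun x => k < x).card := by
  induction s using Multiset.induction_on with
  | empty => simp [mk]
  | cons a s ih =>
    unfold mk at ih ⊢
    rw [Multiset.map_cons, Multiset.sum_cons, Multiset.map_cons, Multiset.sum_cons, ih]
    by_cases h : k < a
    · rw [Multiset.filter_cons_of_pos (p := fun x => k < x) _ h, Multiset.card_cons, min_eq_left (by omega),
        min_eq_left h.le]
      omega
    · rw [Multiset.filter_cons_of_neg (p := fun x => k < x) _ h, min_eq_right (by omega), min_eq_right (by omega)]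
      omega

theorem card_filter_lt (k : ℕ) (s : Multiset ℕ) :
    (s.filter fun x => k < x).card = s.count (k + 1) + (s.filter fun x => k + 1 < x).card := by
  induction s using Multiset.induction_on with
  | empty => simp
  | cons a s ih =>
    by_cases h : k < a
    · rw [Multiset.filter_cons_of_pos (p := fun x => k < x) _ h, Multiset.card_cons, ih]
      by_cases h' : k + 1 < a
      · rw [Multiset.filter_cons_of_pos (p := fun x => k + 1 < x) _ h', Multiset.card_cons,
          Multiset.count_cons_of_ne (by omega)]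
        omega
      · have h2 : a = k + 1 := by omega
        rw [Multiset.filter_cons_of_neg (p := fun x => k + 1 < x) _ h', h2, Multiset.count_cons_self]
        omega
    · rw [Multiset.filter_cons_of_neg (p := fun x => k < x) _ h, Multiset.filter_cons_of_neg (p := fun x => k + 1 < x) _ (by omega),
        Multiset.count_cons_of_ne (by omega), ih]

theorem ms_eq {s t : Multiset ℕ} (hs : ∀ x ∈ s, 0 < x) (ht : ∀ x ∈ t, 0 < x)
    (h : ∀ k, mk k s = mk k t) : s = t := by
  have h1 : ∀ k, (s.filter fun x => k < x).card = (t.filter fun x => k < x).card := by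
    intro k
    have e1 := mk_succ k s
    have e2 := mk_succ k t
    rw [h, h] at e1
    omega
  ext a
  rcases Nat.eq_zero_or_pos a with rfl | ha
  · rw [Multiset.count_eq_zero_of_notMem, Multiset.count_eq_zero_of_notMem]
    · intro hc
      exact absurd (ht 0 hc) (lt_irrefl 0)
    · intro hc
      exact absurd (hs 0 hc) (lt_irrefl 0)
  · obtain ⟨k, rfl⟩ : ∃ k, a = k + 1 := ⟨a - 1, by omega⟩
    have e1 := card_filter_lt k s
    have e2 := card_filter_lt k t
    rw [h1 k, h1 (k + 1)] at e1
    omega

theorem mk_of_le {k : ℕ} {s : Multiset ℕ} (h : ∀ x ∈ s, x ≤ k) : mk k s = s.sum := by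
  unfold mk
  rw [Multiset.map_congr rfl (fun x hx => min_eq_right (h x hx)), Multiset.map_id']

/-- The index of `m X` in terms of a decomposition. -/
theorem index_gcd {X : Type*} [AddCommGroup X] [Finite X] {ι : Type} [Fintype ι] {p e : ι → ℕ}
    (hp : ∀ i, (p i).Prime) (f : X ≃+ ∀ i, ZMod (p i ^ e i)) (m : ℕ) :
    (nsmulAddMonoidHom (α := X) m).range.index = ∏ i, (p i ^ e i).gcd m := by
  classical
  rw [index_eq]
  have h1 : Nat.card {x : X // m • x = 0} =
      Nat.card {x : (∀ i, ZMod (p i ^ e i)) // ∀ i, m • x i = 0} := by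
    refine Nat.card_congr (f.toEquiv.subtypeEquiv (fun x => ?_))
    constructor
    · intro hx i
      have h2 : m • f x = 0 := by rw [← map_nsmul, hx, map_zero]
      exact congrFun h2 i
    · intro hx
      have h2 : m • f x = 0 := by
        funext i
        exact hx i
      rw [← map_nsmul] at h2
      exact (map_eq_zero_iff f f.injective).1 h2
  rw [h1, Nat.card_congr (Equiv.subtypePiEquivPi
    (β := fun i => ZMod (p i ^ e i)) (p := fun i x => m • x = 0)), Nat.card_pi]
  refine Finset.prod_congr rfl fun i _ => ?_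
  have hne : NeZero (p i ^ e i) := ⟨pow_ne_zero _ (hp i).ne_zero⟩
  exact card_kill_zmod m (p i ^ e i)

theorem index_mk {X : Type*} [AddCommGroup X] [Finite X] {ι : Type} [Fintype ι] {p e : ι → ℕ}
    (hp : ∀ i, (p i).Prime) (f : X ≃+ ∀ i, ZMod (p i ^ e i)) {q : ℕ} (hq : q.Prime) (k : ℕ) :
    (nsmulAddMonoidHom (α := X) (q ^ k)).range.index = q ^ mk k (S p e q) := by
  classical
  rw [index_gcd hp f]
  have h2 : ∀ i ∈ Finset.univ, (p i ^ e i).gcd (q ^ k) =
      if p i = q then q ^ min k (e i) else 1 := by
    intro i _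
    by_cases h : p i = q
    · rw [if_pos h, h]
      rcases le_total k (e i) with h3 | h3
      · rw [min_eq_left h3]
        exact Nat.gcd_eq_right (pow_dvd_pow q h3)
      · rw [min_eq_right h3]
        exact Nat.gcd_eq_left (pow_dvd_pow q h3)
    · rw [if_neg h]
      exact Nat.Coprime.pow _ _ ((Nat.coprime_primes (hp i) hq).2 h)
  rw [Finset.prod_congr rfl h2, ← Finset.prod_filter, Finset.prod_pow_eq_pow_sum]
  congr 1
  simp only [mk, S, Multiset.map_map, Function.comp_def]
  rfl

/-- The index of `m (X / r X)`. -/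
theorem index_quot {X : Type*} [AddCommGroup X] [Finite X] {m r : ℕ} (hmr : m ∣ r) :
    (nsmulAddMonoidHom (α := X ⧸ (nsmulAddMonoidHom (α := X) r).range) m).range.index =
      (nsmulAddMonoidHom (α := X) m).range.index := by
  set N := (nsmulAddMonoidHom (α := X) r).range with hN
  have h1 : (nsmulAddMonoidHom (α := X ⧸ N) m).range =
      (nsmulAddMonoidHom (α := X) m).range.map (QuotientAddGroup.mk' N) := by
    ext y
    rw [AddMonoidHom.mem_range, AddSubgroup.mem_map]
    constructor
    · rintro ⟨z, rfl⟩
      obtain ⟨x, rfl⟩ := QuotientAddGroup.mk'_surjective N z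
      exact ⟨m • x, ⟨x, rfl⟩, map_nsmul _ _ _⟩
    · rintro ⟨_, ⟨x, rfl⟩, rfl⟩
      exact ⟨QuotientAddGroup.mk' N x, (map_nsmul (QuotientAddGroup.mk' N) m x).symm⟩
  rw [h1]
  refine AddSubgroup.index_map_eq _ (QuotientAddGroup.mk'_surjective N) ?_
  rw [QuotientAddGroup.ker_mk']
  rintro _ ⟨x, rfl⟩
  obtain ⟨c, rfl⟩ := hmr
  refine ⟨c • x, ?_⟩
  simp only [nsmulAddMonoidHom_apply]
  rw [mul_nsmul']

theorem index_congr {X Y : Type*} [AddCommGroup X] [AddCommGroup Y] [Finite X] [Finite Y]
    (f : X ≃+ Y) (m : ℕ) : (nsmulAddMonoidHom (α := X) m).range.index =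
      (nsmulAddMonoidHom (α := Y) m).range.index := by
  rw [index_eq, index_eq]
  refine Nat.card_congr (f.toEquiv.subtypeEquiv fun x => ?_)
  constructor
  · intro h
    change m • f x = 0
    rw [← map_nsmul, h, map_zero]
  · intro h
    change m • f x = 0 at h
    rw [← map_nsmul] at h
    exact (map_eq_zero_iff f f.injective).1 h

theorem iso_of_parts {X Y : Type*} [AddCommGroup X] [AddCommGroup Y] [Finite X] [Finite Y]
    (h : Nat.card X = Nat.card Y)
    (hp : ∀ p : ℕ, p.Prime → Nonempty
      ((X ⧸ (nsmulAddMonoidHom (α := X) (p ^ (Nat.card X).factorization p)).range) ≃+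
        (Y ⧸ (nsmulAddMonoidHom (α := Y) (p ^ (Nat.card X).factorization p)).range))) :
    Nonempty (X ≃+ Y) := by
  classical
  obtain ⟨ι, _, p, e, hp1, he, ⟨f⟩⟩ := decomp X
  obtain ⟨κ, _, p', e', hp1', he', ⟨g⟩⟩ := decomp Y
  have hS : ∀ q : ℕ, q.Prime → S p e q = S p' e' q := by
    intro q hq
    have c1 := card_S hp1 f q
    have c2 := card_S hp1' g q
    rw [← h] at c2
    obtain ⟨w⟩ := hp q hq
    have pos : ∀ x ∈ S p e q, 0 < x := by
      intro x hx
      simp only [S, Multiset.mem_map, Finset.mem_val, Finset.mem_filter, Finset.mem_univ,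
        true_and] at hx
      obtain ⟨i, _, rfl⟩ := hx
      exact he i
    have pos' : ∀ x ∈ S p' e' q, 0 < x := by
      intro x hx
      simp only [S, Multiset.mem_map, Finset.mem_val, Finset.mem_filter, Finset.mem_univ,
        true_and] at hx
      obtain ⟨i, _, rfl⟩ := hx
      exact he' i
    refine ms_eq pos pos' fun k => ?_
    rcases le_total k ((Nat.card X).factorization q) with hk | hk
    · have i1 := index_mk hp1 f hq k
      have i2 := index_mk hp1' g hq k
      have hd : q ^ k ∣ q ^ (Nat.card X).factorization q := pow_dvd_pow q hk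
      have i3 := index_quot (X := X) hd
      have i4 := index_quot (X := Y) hd
      have i5 := index_congr w (q ^ k)
      rw [i3, i4, i1, i2] at i5
      exact Nat.pow_right_injective hq.two_le i5
    · rw [mk_of_le, mk_of_le, ← c1, ← c2]
      · intro x hx
        have := Multiset.single_le_sum (fun _ _ => Nat.zero_le _) x hx
        omega
      · intro x hx
        have := Multiset.single_le_sum (fun _ _ => Nat.zero_le _) x hx
        omega
  obtain ⟨w⟩ := iso_of_S hp1 hp1' hS
  exact ⟨(f.trans w).trans g.symm⟩

end Pool.Agent.Lib.RkP
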