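import Pool.Agent.Lib.RkP.Sub
import Pool.Agent.Lib.RkP.Brk

/-!
# The `p`-parts of the regulating quotients when the `p`-part of `G / C` is cyclic
-/

namespace Pool.Agent.Lib.RkP

open Pool.Agent.Lib.C8da183 Pool.Agent.Lib.RkQ
open scoped Classical

set_option linter.unusedSectionVars false

variable {V : Type*} [AddCommGroup V] [Module ℚ V]
variable {G C : AddSubgroup V} {p e n' : ℕ}

namespace PD

theorem good_up (D : PD G C p e n') {L' : AddSubgroup V}
    (hL' : IsRegulating (tor G C (p ^ e)) L') : Good G p e (L' ⊔ pm (p ^ e) G) ∧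
      (L' ⊔ pm (p ^ e) G) ⊓ tor G C (p ^ e) = L' := by
  have hle : L' ≤ tor G C (p ^ e) := hL'.le
  have hidx : L'.relIndex (tor G C (p ^ e)) = p ^ e := by
    rw [(hL'.relIndex_eq D.reg.1 D.reg.2).1, D.relIndex_tor]
  have hinf : (L' ⊔ pm (p ^ e) G) ⊓ tor G C (p ^ e) = L' := by
    apply le_antisymm
    · rintro y ⟨hy, hyH⟩
      obtain ⟨l, hl, _, ⟨g, hg, rfl⟩, e1⟩ := AddSubgroup.mem_sup.mp hy
      have e1' : l + p ^ e • g = y := e1
      have h1 : p ^ e • g ∈ tor G C (p ^ e) := by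
        have : p ^ e • g = y - l := by rw [← e1']; abel
        rw [this]
        exact AddSubgroup.sub_mem _ hyH (hle hl)
      have h2 := D.mem_of_pow hg h1
      have h3 : p ^ e • g ∈ L' := by
        have h0 : L'.relIndex (tor G C (p ^ e)) ≠ 0 := by
          rw [hidx]; exact pow_ne_zero _ D.hp.ne_zero
        have := (exists_nsmul_mem h0).2 g h2
        rwa [hidx] at this
      rw [← e1']
      exact L'.add_mem hl h3
    · exact le_inf le_sup_left hle
  refine ⟨⟨sup_le (hle.trans tor_le) pm_le, le_sup_right, ?_, fun x hx hx0 y hy => ?_⟩, hinf⟩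
  · rw [← D.relIndex_eq le_sup_right, ← AddSubgroup.inf_relIndex_right, hinf, hidx]
  · have hn0 : (n' : ℚ) ≠ 0 := by exact_mod_cast D.n'pos.ne'
    have h1 : TypeLE G x G (n' • x) := by
      rw [nsmul_eq]; exact (TypeLE.refl G x).smul_right _
    have h2 : TypeLE G (n' • x) G x := by
      rw [nsmul_eq]; exact (TypeLE.refl G x).smul_left hn0
    have hx' : n' • x ≠ 0 := by
      rw [nsmul_eq]; exact smul_ne_zero hn0 hx0
    have h3 : n' • y ∈ up (tor G C (p ^ e)) (n' • x) := by
      rw [up_sub tor_le D.n'pos D.n'_smul]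
      refine ⟨D.n'_smul y (up_le hy), ?_⟩
      rw [← up_eq_of_equiv h1 h2]
      exact AddSubgroup.nsmul_mem _ hy _
    obtain ⟨l, hl, s, hs, e1⟩ := AddSubgroup.mem_sup.mp
      (hL'.up_le_sup (D.n'_smul x hx) hx' h3)
    rw [sharp_sub tor_le D.n'pos D.n'_smul, ← sharp_eq_of_equiv h1 h2] at hs
    obtain ⟨a, c, hab⟩ := D.coeff e
    have hy2 : y = (a • l + p ^ e • (c • y)) + a • s := by
      have h4 : y = (a * n' + c * (p ^ e : ℕ)) • y := by rw [hab, one_smul]
      have h5 : (a * n' + c * (p ^ e : ℕ)) • y = a • (n' • y) + p ^ e • (c • y) := by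
        rw [add_smul]
        simp only [← natCast_zsmul, smul_smul]
        congr 2
        ring
      rw [h5, ← e1] at h4
      rw [smul_add] at h4
      nth_rewrite 1 [h4]
      abel
    rw [hy2]
    refine AddSubgroup.add_mem _ (AddSubgroup.mem_sup_left (AddSubgroup.add_mem _
      (AddSubgroup.mem_sup_left (L'.zsmul_mem hl a))
      (AddSubgroup.mem_sup_right ⟨c • y, G.zsmul_mem (up_le hy) _, rfl⟩))) ?_
    exact AddSubgroup.mem_sup_right (AddSubgroup.zsmul_mem _ hs.2 a)

theorem cyc (D : PD G C p e n') (h : (C ⊔ pm p G).relIndex G ≤ p) :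
    IsAddCyclic (tor G C (p ^ e) ⧸ C.addSubgroupOf (tor G C (p ^ e))) := by
  have hcard : Nat.card (tor G C (p ^ e) ⧸ C.addSubgroupOf (tor G C (p ^ e))) = p ^ e :=
    D.relIndex_tor
  have hfin : Finite (tor G C (p ^ e) ⧸ C.addSubgroupOf (tor G C (p ^ e))) :=
    Nat.finite_of_card_ne_zero (by rw [hcard]; exact pow_ne_zero _ D.hp.ne_zero)
  refine isAddCyclic_of_index_le fun q hq => ?_
  by_cases hqp : q = p
  · subst hqp
    rw [index_range D.C_le]
    by_cases he : e = 0
    · have h1 := AddSubgroup.relIndex_dvd_of_le_left (tor G C (q ^ e))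
        (le_sup_left : C ≤ C ⊔ pm q (tor G C (q ^ e)))
      rw [D.relIndex_tor, he, pow_zero, Nat.dvd_one] at h1
      rw [he, pow_zero] at *
      rw [h1]
      exact hq.one_lt.le
    · have hpL : pm (q ^ e) G ≤ C ⊔ pm q G := by
        rintro _ ⟨g, hg, rfl⟩
        refine AddSubgroup.mem_sup_right ⟨q ^ (e - 1) • g, G.nsmul_mem hg _, ?_⟩
        change q • (q ^ (e - 1) • g) = q ^ e • g
        rw [smul_smul, ← pow_succ', Nat.sub_add_cancel (Nat.pos_of_ne_zero he)]
      have h1 : (C ⊔ pm q G) ⊓ tor G C (q ^ e) ≤ C ⊔ pm q (tor G C (q ^ e)) := by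
        rintro y ⟨hy, hyH⟩
        obtain ⟨c, hc, _, ⟨g, hg, rfl⟩, e1⟩ := AddSubgroup.mem_sup.mp hy
        have e1' : c + q • g = y := e1
        have h2 : q ^ 1 • g ∈ tor G C (q ^ e) := by
          have : q ^ 1 • g = y - c := by rw [← e1', pow_one]; abel
          rw [this]
          exact AddSubgroup.sub_mem _ hyH (D.C_le hc)
        have h3 := D.mem_of_pow hg h2
        rw [← e1']
        exact AddSubgroup.add_mem _ (AddSubgroup.mem_sup_left hc)
          (AddSubgroup.mem_sup_right ⟨g, h3, rfl⟩)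
      have h2 := AddSubgroup.relIndex_dvd_of_le_left (tor G C (q ^ e)) h1
      rw [AddSubgroup.inf_relIndex_right, D.relIndex_eq hpL] at h2
      have h3 : (C ⊔ pm q G).relIndex G ≠ 0 := by
        intro h0
        exact D.hn0 (AddSubgroup.relIndex_eq_zero_of_le_left le_sup_left h0)
      exact (Nat.le_of_dvd (Nat.pos_of_ne_zero h3) h2).trans h
  · obtain ⟨r, hr⟩ := exists_modCard
      (X := tor G C (p ^ e) ⧸ C.addSubgroupOf (tor G C (p ^ e))) hq
    have h1 : (nsmulAddMonoidHom (α := tor G C (p ^ e) ⧸ C.addSubgroupOf (tor G C (p ^ e)))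
        q).range.index ∣ p ^ e := by
      have h0 := (nsmulAddMonoidHom (α := tor G C (p ^ e) ⧸ C.addSubgroupOf (tor G C (p ^ e)))
        q).range.index_dvd_card
      rwa [hcard] at h0
    rw [hr] at h1
    have h2 : Nat.Coprime (q ^ r) (p ^ e) :=
      ((Nat.coprime_primes hq D.hp).mpr hqp).pow _ _
    have h3 : q ^ r = 1 := Nat.Coprime.eq_one_of_dvd h2 h1
    rw [hr, h3]
    exact hq.one_lt.le

theorem cyc_part (D : PD G C p e n') (h : (C ⊔ pm p G).relIndex G ≤ p)
    {Y : Type*} [AddCommGroup Y] [Finite Y] :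
    (∃ L, Good G p e L ∧ Nonempty ((G ⧸ L.addSubgroupOf G) ≃+ Y)) ↔ Nat.card Y = p ^ e ∧
      ∀ k, (nsmulAddMonoidHom (α := Y) (p ^ k)).range.index ≤
        p ^ gapSum (breaks G C p) e k := by
  have hfac : (p ^ e).factorization p = e := by
    rw [D.hp.factorization_pow, Finsupp.single_eq_same]
  have T := (regQuot_tfae D.reg.1 D.reg.2 (D.cyc h) Y).out 0 2
  rw [D.relIndex_tor] at T
  constructor
  · rintro ⟨L, hL, ⟨φ⟩⟩
    obtain ⟨ψ⟩ := D.equiv hL.pm_le
    have hreg : RegQuot (tor G C (p ^ e)) Y := by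
      refine ⟨L ⊓ tor G C (p ^ e), D.good_down hL, ⟨?_⟩⟩
      exact ((QuotientAddGroup.quotientAddEquivOfEq
        (AddSubgroup.inf_addSubgroupOf_right _ _)).trans ψ.symm).trans φ
    obtain ⟨h1, h2⟩ := T.mp hreg
    refine ⟨h1, fun k => ?_⟩
    have h3 := h2 p D.hp k
    rw [hfac, D.breaks_tor] at h3
    exact h3
  · rintro ⟨h1, h2⟩
    have hreg : RegQuot (tor G C (p ^ e)) Y := by
      refine T.mpr ⟨h1, fun q hq k => ?_⟩
      by_cases hqp : q = p
      · subst hqp
        rw [hfac, D.breaks_tor]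
        exact h2 k
      · have h3 : (nsmulAddMonoidHom (α := Y) (q ^ k)).range = ⊤ := by
          rw [eq_top_iff]
          intro y _
          have hcop : IsCoprime ((q ^ k : ℕ) : ℤ) ((p ^ e : ℕ) : ℤ) := by
            rw [Nat.isCoprime_iff_coprime]
            exact ((Nat.coprime_primes hq D.hp).mpr hqp).pow _ _
          obtain ⟨a, c, hab⟩ := hcop
          refine ⟨a • y, ?_⟩
          have h4 : p ^ e • y = 0 := by
            rw [← h1]; exact card_nsmul_eq_zero'
          have h5 : y = (a * (q ^ k : ℕ) + c * (p ^ e : ℕ)) • y := by rw [hab, one_smul]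
          have h6 : (a * (q ^ k : ℕ) + c * (p ^ e : ℕ)) • y = q ^ k • (a • y) := by
            rw [add_smul, mul_smul c, natCast_zsmul, h4, smul_zero, add_zero, mul_comm, mul_smul,
              natCast_zsmul]
          change q ^ k • (a • y) = y
          rw [← h6, ← h5]
        have h7 : Nat.card (Y ⧸ (nsmulAddMonoidHom (α := Y) (q ^ k)).range) = 1 := by
          have : (nsmulAddMonoidHom (α := Y) (q ^ k)).range.index = 1 := by
            rw [h3, AddSubgroup.index_top]
          exact this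
        rw [h7]
        exact Nat.one_le_pow _ _ hq.pos
    obtain ⟨L', hL', ⟨φ⟩⟩ := hreg
    obtain ⟨hg, hinf⟩ := D.good_up hL'
    obtain ⟨ψ⟩ := D.equiv hg.pm_le
    refine ⟨_, hg, ⟨?_⟩⟩
    refine (ψ.trans (QuotientAddGroup.quotientAddEquivOfEq ?_)).trans φ
    rw [← AddSubgroup.inf_addSubgroupOf_right, hinf]

end PD

end Pool.Agent.Lib.RkP
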