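import Pool.Agent.Lib.RkP.Defs
import Pool.Agent.Lib.RkP.Up
import Pool.Agent.Lib.RkP.Glue
import Pool.Agent.Lib.RkP.Parts

/-!
# Prime by prime determination of the regulating quotients
-/

namespace Pool.Agent.Lib.RkP

open Pool.Agent.Lib.C8da183 Pool.Agent.Lib.RkQ Pool.Agent.Lib.RkQ.Iso2
open scoped Classical

set_option linter.unusedSectionVars false

section Fin

variable {X : Type*} [AddCommGroup X] [Finite X] {p : ℕ}

theorem index_ge (hp : p.Prime) {k : ℕ} (hk : (Nat.card X).factorization p ≤ k) :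
    (nsmulAddMonoidHom (α := X) (p ^ k)).range.index = p ^ (Nat.card X).factorization p := by
  obtain ⟨ι, _, q, e, hq, he, ⟨f⟩⟩ := decomp X
  have c1 := card_S hq f p
  rw [index_mk hq f hp k, mk_of_le, ← c1]
  intro x hx
  have := Multiset.single_le_sum (fun _ _ => Nat.zero_le _) x hx
  omega

/-- the `p`-part of `X` -/
abbrev Part (X : Type*) [AddCommGroup X] (p v : ℕ) : Type _ :=
  X ⧸ (nsmulAddMonoidHom (α := X) (p ^ v)).range

theorem card_part (hp : p.Prime) : Nat.card (Part X p ((Nat.card X).factorization p)) =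
    p ^ (Nat.card X).factorization p := index_ge hp le_rfl

theorem fact_part (hp : p.Prime) :
    (Nat.card (Part X p ((Nat.card X).factorization p))).factorization p =
      (Nat.card X).factorization p := by
  rw [card_part hp, hp.factorization_pow, Finsupp.single_eq_same]

theorem index_part (hp : p.Prime) (k : ℕ) :
    (nsmulAddMonoidHom (α := Part X p ((Nat.card X).factorization p)) (p ^ k)).range.index =
      (nsmulAddMonoidHom (α := X) (p ^ k)).range.index := by
  rcases le_total k ((Nat.card X).factorization p) with hk | hk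
  · exact index_quot (pow_dvd_pow p hk)
  · rw [index_ge hp hk, index_ge hp (by rw [fact_part hp]; exact hk), fact_part hp]

theorem index_other (hp : p.Prime) {q : ℕ} (hq : q.Prime) (hqp : q ≠ p) :
    (nsmulAddMonoidHom (α := Part X p ((Nat.card X).factorization p)) q).range.index = 1 := by
  obtain ⟨r, hr⟩ := exists_modCard (X := Part X p ((Nat.card X).factorization p)) hq
  have h1 := (nsmulAddMonoidHom (α := Part X p ((Nat.card X).factorization p))
    q).range.index_dvd_card
  rw [card_part hp, hr] at h1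
  have h2 : Nat.Coprime (q ^ r) (p ^ (Nat.card X).factorization p) :=
    ((Nat.coprime_primes hq hp).mpr hqp).pow _ _
  rw [hr]
  exact Nat.Coprime.eq_one_of_dvd h2 h1

theorem noCube_part (hp : p.Prime) (h : NoCube X p) :
    NoCube (Part X p ((Nat.card X).factorization p)) p := by
  set v := (Nat.card X).factorization p with hv
  have hc0 : Nat.card X ≠ 0 := Nat.card_pos.ne'
  set m := Nat.card X / p ^ v with hm
  have hcard : Nat.card X = p ^ v * m := (Nat.ordProj_mul_ordCompl_eq_self _ _).symm
  have hcop : IsCoprime (m : ℤ) ((p ^ v : ℕ) : ℤ) := by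
    rw [Nat.isCoprime_iff_coprime]
    exact (Nat.coprime_ordCompl hp hc0).symm.pow_right _
  obtain ⟨a, c, hab⟩ := hcop
  have hkill : ∀ x : X, (p ^ v * m) • x = 0 := fun x => by
    rw [← hcard]; exact card_nsmul_eq_zero'
  intro y hy
  obtain ⟨x, rfl⟩ := QuotientAddGroup.mk'_surjective _ y
  set z : X := a • (m • x) with hz
  have hzx : QuotientAddGroup.mk' (nsmulAddMonoidHom (α := X) (p ^ v)).range x =
      QuotientAddGroup.mk' (nsmulAddMonoidHom (α := X) (p ^ v)).range z := by
    rw [QuotientAddGroup.mk'_apply, QuotientAddGroup.mk'_apply, QuotientAddGroup.eq]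
    refine ⟨-(c • x), ?_⟩
    change p ^ v • (-(c • x)) = -x + z
    have h1 : x = (a * m + c * (p ^ v : ℕ)) • x := by rw [hab, one_smul]
    have h2 : (a * m + c * (p ^ v : ℕ)) • x = z + p ^ v • (c • x) := by
      rw [hz, add_smul]
      simp only [← natCast_zsmul, smul_smul]
      congr 2
      ring
    rw [h2] at h1
    nth_rewrite 2 [h1]
    rw [smul_neg]
    abel
  have hvz : p ^ v • z = 0 := by
    have h1 : p ^ v • z = a • ((p ^ v * m) • x) := by
      rw [hz]
      simp only [← natCast_zsmul, smul_smul]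
      congr 1
      push_cast
      ring
    rw [h1, hkill, smul_zero]
  rw [hzx] at hy ⊢
  rw [← map_nsmul, QuotientAddGroup.mk'_apply, QuotientAddGroup.eq_zero_iff] at hy
  obtain ⟨w, hw⟩ := hy
  have hw' : p ^ v • w = p ^ 3 • z := hw
  have h3 : p ^ 3 • z = 0 := by
    have h1 : p ^ 3 • z = (a * m + c * (p ^ v : ℕ)) • (p ^ 3 • z) := by rw [hab, one_smul]
    have h2 : (a * m + c * (p ^ v : ℕ)) • (p ^ 3 • z) =
        a • (m • (p ^ 3 • z)) + (c * (p ^ 3 : ℕ)) • (p ^ v • z) := by
      rw [add_smul]
      simp only [← natCast_zsmul, smul_smul]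
      congr 2
      · push_cast
        ring
      · push_cast
        ring
    have h4 : m • (p ^ 3 • z) = 0 := by
      rw [← hw', smul_smul, mul_comm]
      exact hkill w
    rw [h1, h2, h4, hvz, smul_zero, smul_zero, add_zero]
  rw [← map_nsmul, h z h3, map_zero]

theorem quot_congr {X Y : Type*} [AddCommGroup X] [AddCommGroup Y] (e : X ≃+ Y) (p v : ℕ) :
    Nonempty (Part X p v ≃+ Part Y p v) := by
  refine ⟨QuotientAddGroup.congr _ _ e ?_⟩
  ext y
  constructor
  · rintro ⟨_, ⟨x, rfl⟩, rfl⟩
    exact ⟨e x, (map_nsmul e (p ^ v) x).symm⟩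
  · rintro ⟨y, rfl⟩
    refine ⟨p ^ v • e.symm y, ⟨e.symm y, rfl⟩, ?_⟩
    change e (p ^ v • e.symm y) = p ^ v • y
    rw [map_nsmul, e.apply_symm_apply]

end Fin

variable {V : Type*} [AddCommGroup V] [Module ℚ V]
variable {G C : AddSubgroup V} {J : Type*} [Fintype J] [DecidableEq J] {b : J → V}
  {f : J → V →ₗ[ℚ] ℚ} {p : ℕ}

theorem comap_range {K : AddSubgroup V} (m : ℕ) :
    (nsmulAddMonoidHom (α := G ⧸ K.addSubgroupOf G) m).range.comap
      (QuotientAddGroup.mk' (K.addSubgroupOf G)) = (K ⊔ pm m G).addSubgroupOf G := by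
  ext ⟨v, hv⟩
  rw [AddSubgroup.mem_comap, AddSubgroup.mem_addSubgroupOf]
  constructor
  · rintro ⟨y, hy⟩
    induction y using QuotientAddGroup.induction_on with
    | H z =>
      have h1 : ((m • z : G) : G ⧸ K.addSubgroupOf G) = ((⟨v, hv⟩ : G) : G ⧸ K.addSubgroupOf G) :=
        hy
      rw [QuotientAddGroup.eq, AddSubgroup.mem_addSubgroupOf] at h1
      have h2 : v = (-(m • (z : V)) + v) + m • (z : V) := by abel
      change v ∈ _
      rw [h2]
      exact AddSubgroup.add_mem _ (AddSubgroup.mem_sup_left h1)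
        (AddSubgroup.mem_sup_right ⟨z, z.2, rfl⟩)
  · intro h
    obtain ⟨c, hc, _, ⟨u, hu, rfl⟩, e⟩ := AddSubgroup.mem_sup.mp h
    refine ⟨((⟨u, hu⟩ : G) : G ⧸ K.addSubgroupOf G), ?_⟩
    change (((m • ⟨u, hu⟩ : G)) : G ⧸ K.addSubgroupOf G) =
      ((⟨v, hv⟩ : G) : G ⧸ K.addSubgroupOf G)
    rw [QuotientAddGroup.eq, AddSubgroup.mem_addSubgroupOf]
    have h2 : -(m • u) + v = c := by
      have h3 : c + m • u = v := e
      rw [← h3]; abel
    change -(m • u) + v ∈ K
    rw [h2]
    exact hc

theorem part_equiv {K : AddSubgroup V} (p v : ℕ) :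
    Nonempty (Part (G ⧸ K.addSubgroupOf G) p v ≃+
      (G ⧸ (K ⊔ pm (p ^ v) G).addSubgroupOf G)) := by
  set φ : G →+ Part (G ⧸ K.addSubgroupOf G) p v :=
    (QuotientAddGroup.mk' (nsmulAddMonoidHom (α := G ⧸ K.addSubgroupOf G) (p ^ v)).range).comp
      (QuotientAddGroup.mk' (K.addSubgroupOf G)) with hφ
  have hs : Function.Surjective φ :=
    (QuotientAddGroup.mk'_surjective _).comp (QuotientAddGroup.mk'_surjective _)
  have hk : φ.ker = (K ⊔ pm (p ^ v) G).addSubgroupOf G := by
    rw [← comap_range (p ^ v)]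
    ext y
    rw [AddMonoidHom.mem_ker, AddSubgroup.mem_comap]
    exact QuotientAddGroup.eq_zero_iff _
  exact ⟨((QuotientAddGroup.quotientAddEquivOfEq hk).symm.trans
    (QuotientAddGroup.quotientKerEquivOfSurjective φ hs)).symm⟩

theorem card_reg (hG : IsACD G) (hC : IsRegulating G C) {C' : AddSubgroup V}
    (hC' : IsRegulating G C') : Nat.card (G ⧸ C'.addSubgroupOf G) = C.relIndex G := by
  rw [(hC.relIndex_eq hG hC').1]; rfl

theorem finite_reg (hG : IsACD G) {C' : AddSubgroup V}
    (hC' : IsRegulating G C') : Finite (G ⧸ C'.addSubgroupOf G) :=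
  Nat.finite_of_card_ne_zero (hC'.relIndex_eq hG hC').2

theorem exists_rank (hG : IsACD G) (hC : IsRegulating G C) : ∃ d : ℕ → ℕ, ∀ q, q.Prime →
    (nsmulAddMonoidHom (α := G ⧸ C.addSubgroupOf G) q).range.index = q ^ d q := by
  have hfin := finite_reg hG hC
  have h : ∀ q, ∃ d, q.Prime → (nsmulAddMonoidHom (α := G ⧸ C.addSubgroupOf G)
      q).range.index = q ^ d := by
    intro q
    by_cases hq : q.Prime
    · obtain ⟨d, hd⟩ := exists_modCard (X := G ⧸ C.addSubgroupOf G) hq
      exact ⟨d, fun _ => hd⟩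
    · exact ⟨0, fun h => absurd h hq⟩
  choose d hd using h
  exact ⟨d, hd⟩

theorem occurs_iff_good (hG : IsACD G) (hC : IsRegulating G C) (hp : p.Prime)
    {X : Type*} [AddCommGroup X] : Occurs G X p ↔
      ∃ L, PD.Good G p ((C.relIndex G).factorization p) L ∧
        Nonempty ((G ⧸ L.addSubgroupOf G) ≃+ PPart X p) := by
  constructor
  · rintro ⟨C', hC', ⟨φ⟩⟩
    refine ⟨_, good_of_reg hG hC hp hC', ?_⟩
    obtain ⟨ψ⟩ := part_equiv (G := G) (K := C') p ((C.relIndex G).factorization p)
    unfold PPart at φ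
    rw [card_reg hG hC hC'] at φ
    exact ⟨ψ.symm.trans φ⟩
  · rintro ⟨L, hL, ⟨φ⟩⟩
    obtain ⟨K, hK, hKL⟩ := glue hG hC
      (fun q => if q = p then L else C ⊔ pm (q ^ (C.relIndex G).factorization q) G)
      (fun q hq => by
        by_cases hqp : q = p
        · subst hqp
          rw [if_pos rfl]
          exact hL
        · rw [if_neg hqp]
          exact good_of_reg hG hC hq hC)
    have h1 := hKL p hp
    rw [if_pos rfl] at h1
    obtain ⟨ψ⟩ := part_equiv (G := G) (K := K) p ((C.relIndex G).factorization p)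
    rw [h1] at ψ
    refine ⟨K, hK, ?_⟩
    unfold PPart
    rw [card_reg hG hC hK]
    exact ⟨ψ.trans φ⟩

theorem fact_of_good (hp : p.Prime) {X : Type*} [AddCommGroup X] [Finite X] {v : ℕ}
    {L : AddSubgroup V} (hL : PD.Good G p v L)
    (h : Nonempty ((G ⧸ L.addSubgroupOf G) ≃+ PPart X p)) :
    (Nat.card X).factorization p = v := by
  obtain ⟨φ⟩ := h
  have h1 : Nat.card (G ⧸ L.addSubgroupOf G) = p ^ v := hL.idx
  rw [Nat.card_congr φ.toEquiv] at h1
  have h2 := card_part (X := X) hp
  exact Nat.pow_right_injective hp.two_le (h2.symm.trans h1)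

/-- (A) -/
theorem regQuot_iff_occurs (hG : IsACD G) (hC : IsRegulating G C)
    {X : Type*} [AddCommGroup X] [Finite X] :
    RegQuot G X ↔ ∀ p : ℕ, p.Prime → Occurs G X p := by
  constructor
  · rintro ⟨C', hC', ⟨φ⟩⟩ p hp
    obtain ⟨φ1⟩ := quot_congr φ p ((Nat.card X).factorization p)
    refine ⟨C', hC', ?_⟩
    unfold PPart
    rw [Nat.card_congr φ.toEquiv]
    exact ⟨φ1⟩
  · intro h
    have hL : ∀ p, ∃ L, p.Prime → PD.Good G p ((C.relIndex G).factorization p) L ∧
        Nonempty ((G ⧸ L.addSubgroupOf G) ≃+ PPart X p) := by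
      intro p
      by_cases hp : p.Prime
      · obtain ⟨L, hL⟩ := (occurs_iff_good hG hC hp).mp (h p hp)
        exact ⟨L, fun _ => hL⟩
      · exact ⟨⊥, fun h => absurd h hp⟩
    choose L hL using hL
    obtain ⟨K, hK, hKL⟩ := glue hG hC L (fun p hp => (hL p hp).1)
    have hfin := finite_reg hG hK
    have hcard : Nat.card (G ⧸ K.addSubgroupOf G) = Nat.card X := by
      rw [card_reg hG hC hK]
      refine Nat.eq_of_factorization_eq (hC.relIndex_eq hG hC).2 Nat.card_pos.ne' fun p => ?_
      by_cases hp : p.Prime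
      · exact (fact_of_good hp (hL p hp).1 (hL p hp).2).symm
      · rw [Nat.factorization_eq_zero_of_not_prime _ hp,
          Nat.factorization_eq_zero_of_not_prime _ hp]
    obtain ⟨φ⟩ := iso_of_parts (X := G ⧸ K.addSubgroupOf G) (Y := X) hcard
      (fun p hp => by
        obtain ⟨φ2⟩ := part_equiv (G := G) (K := K) p ((C.relIndex G).factorization p)
        rw [hKL p hp] at φ2
        obtain ⟨ψ⟩ := (hL p hp).2
        rw [hcard]
        have h1 := fact_of_good hp (hL p hp).1 (hL p hp).2
        rw [← h1] at φ2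
        exact ⟨φ2.trans ψ⟩)
    exact ⟨K, hK, ⟨φ⟩⟩

/-- (B) -/
theorem occurs_cyclic (hG : IsACD G) (hC : IsRegulating G C) (hp : p.Prime)
    {K : AddSubgroup V} (hK : IsRegulating G K)
    (hcyc : (nsmulAddMonoidHom (α := G ⧸ K.addSubgroupOf G) p).range.index ≤ p)
    {X : Type*} [AddCommGroup X] [Finite X] :
    Occurs G X p ↔ (Nat.card X).factorization p = (C.relIndex G).factorization p ∧
      ∀ k, (nsmulAddMonoidHom (α := X) (p ^ k)).range.index ≤
        p ^ gapSum (breaks G K p) ((C.relIndex G).factorization p) k := by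
  have D : PD G K p ((C.relIndex G).factorization p)
      (C.relIndex G / p ^ (C.relIndex G).factorization p) :=
    ⟨hG, hK, hp, by rw [(hK.relIndex_eq hG hC).1, Nat.ordProj_mul_ordCompl_eq_self],
      (Nat.coprime_ordCompl hp (hC.relIndex_eq hG hC).2).symm⟩
  rw [index_range hK.le] at hcyc
  rw [occurs_iff_good hG hC hp, D.cyc_part hcyc (Y := PPart X p)]
  refine and_congr ?_ (forall_congr' fun k => ?_)
  · have h1 : Nat.card (PPart X p) = p ^ (Nat.card X).factorization p := card_part hp
    rw [h1]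
    exact ⟨fun h => Nat.pow_right_injective hp.two_le h, fun h => by rw [h]⟩
  · have h1 : (nsmulAddMonoidHom (α := PPart X p) (p ^ k)).range.index =
      (nsmulAddMonoidHom (α := X) (p ^ k)).range.index := index_part hp k
    rw [h1]

/-- (C) -/
theorem occurs_rank (hG : IsACD G) (R : Ref G C b f) (hC : IsRegulating G C) (hp : p.Prime)
    {X : Type*} [AddCommGroup X] [Finite X] {r : ℕ}
    (hr : (nsmulAddMonoidHom (α := X) p).range.index = p ^ r)
    (h4 : r ≤ 1 ∨ (Nat.card X).factorization p ≤ r + 1 ∨ ¬ p ^ 4 ∣ C.relIndex G ∨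
      (NoCube X p ∧ ∀ C', IsRegulating G C' → NoCube (G ⧸ C'.addSubgroupOf G) p)) :
    Occurs G X p ↔ (Nat.card X).factorization p = (C.relIndex G).factorization p ∧
      RankCond G C b p r ∧ FullCond G p r := by
  have cX := card_part (X := X) hp
  have iX := index_part (X := X) hp 1
  rw [pow_one] at iX
  constructor
  · intro hocc
    obtain ⟨L, hL, hL2⟩ := (occurs_iff_good hG hC hp).mp hocc
    refine ⟨fact_of_good hp hL hL2, ?_⟩
    obtain ⟨C', hC', ⟨φ⟩⟩ := hocc
    have hfin := finite_reg hG hC'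
    have iY := index_part (X := G ⧸ C'.addSubgroupOf G) hp 1
    rw [pow_one, index_range hC'.le] at iY
    have h1 := RkQ.index_congr (p := p) φ
    have h2 : (C' ⊔ pm p G).relIndex G = p ^ r := by
      rw [← hr, ← iX, ← iY]
      exact h1
    refine ⟨fun s hs => ?_, (reg_iff_full hG hC).mp ⟨C', hC', h2.ge⟩⟩
    have h1 := lower hG R hC hp hC' (s := s) (fun j hj => mem_Jp.mpr (hs j hj))
    rwa [h2] at h1
  · rintro ⟨hv, h3⟩
    obtain ⟨d, hd⟩ := exists_rank hG hC
    obtain ⟨C', hC', h6⟩ := (rank_iff hG R hC (fun q => if q = p then r else d q)).mpr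
      (fun q hq => by
        by_cases hqp : q = p
        · subst hqp
          rw [if_pos rfl]
          exact h3
        · rw [if_neg hqp]
          exact (rank_iff hG R hC d).mp ⟨C, hC, hd⟩ q hq)
    have h7 := h6 p hp
    rw [if_pos rfl] at h7
    have hfin := finite_reg hG hC'
    have hcard' := card_reg hG hC hC'
    refine ⟨C', hC', ?_⟩
    have cY := card_part (X := G ⧸ C'.addSubgroupOf G) hp
    have iY := index_part (X := G ⧸ C'.addSubgroupOf G) hp 1
    rw [pow_one] at iY
    have hvY : (Nat.card (G ⧸ C'.addSubgroupOf G)).factorization p =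
        (Nat.card X).factorization p := by rw [hcard', hv]
    have hf : (Nat.card (PPart X p)).factorization p = (Nat.card X).factorization p :=
      fact_part hp
    obtain ⟨ψ⟩ := iso_gen (X := PPart X p) (Y := PPart (G ⧸ C'.addSubgroupOf G) p)
      (cX.trans (by rw [← hvY]; exact cY.symm)) (fun q s hq hs => by
        by_cases hqp : q = p
        · subst hqp
          have hrs : r = s := Nat.pow_right_injective hq.two_le ((hr.symm.trans iX.symm).trans hs)
          subst hrs
          rw [hf]
          rcases h4 with h5 | h5 | h5 | h5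
          · exact Or.inl h5
          · exact Or.inr (Or.inl h5)
          · by_cases h0 : r ≤ 1
            · exact Or.inl h0
            · right; left
              have h6 : (Nat.card X).factorization q < 4 := by
                rw [hv]
                by_contra h2
                push Not at h2
                exact h5 ((hq.pow_dvd_iff_le_factorization (hC.relIndex_eq hG hC).2).mpr h2)
              omega
          · exact Or.inr (Or.inr ⟨noCube_part hq h5.1, noCube_part hq (h5.2 C' hC')⟩)
        · have h8 := index_other (X := X) hp hq hqp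
          left
          have h9 : q ^ s = 1 := hs.symm.trans h8
          have : s = 0 := by
            by_contra h0
            exact (Nat.one_lt_pow h0 hq.one_lt).ne' h9
          omega)
      (fun q hq => by
        by_cases hqp : q = p
        · subst hqp
          exact (iX.trans (hr.trans h7.symm)).trans iY.symm
        · exact (index_other (X := X) hp hq hqp).trans
            (index_other (X := G ⧸ C'.addSubgroupOf G) hp hq hqp).symm)
    exact ⟨ψ.symm⟩

end Pool.Agent.Lib.RkP
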