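import Pool.Agent.Lib.C8da183.Final
import Pool.Agent.Lib.C8da183.Cut
import Pool.Agent.Lib.RkQ.Main

/-!
# The subgroup of `G` which belongs to the `p`-part of `G / C`
-/

namespace Pool.Agent.Lib.RkP

open Pool.Agent.Lib.C8da183 Pool.Agent.Lib.RkQ
open scoped Classical

set_option linter.unusedSectionVars false

variable {V : Type*} [AddCommGroup V] [Module ℚ V]
variable {G C H : AddSubgroup V}

section TypeLE

variable {m : ℕ}

theorem typeLE_sub (hHG : H ≤ G) (hm : 0 < m) (hmH : ∀ g ∈ G, m • g ∈ H) {a y : V} :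
    TypeLE H a H y ↔ TypeLE G a G y := by
  have key : ∀ (q : ℚ) (k : ℕ) (v : V), q • ((m * k) • v) = ((m : ℚ) * q) • (k • v) := by
    intro q k v
    rw [nsmul_eq, nsmul_eq, smul_smul, smul_smul]
    congr 1
    push_cast
    ring
  constructor
  · rintro ⟨k, hk, h⟩
    refine ⟨m * k, Nat.mul_pos hm hk, fun q hq => ?_⟩
    have h1 := hmH _ hq
    rw [nsmul_eq, smul_smul] at h1
    rw [key]
    exact hHG (h _ h1)
  · rintro ⟨k, hk, h⟩
    refine ⟨m * k, Nat.mul_pos hm hk, fun q hq => ?_⟩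
    have h1 := hmH _ (h q (hHG hq))
    rw [nsmul_eq, smul_smul] at h1
    rw [key]
    exact h1

theorem up_sub (hHG : H ≤ G) (hm : 0 < m) (hmH : ∀ g ∈ G, m • g ∈ H) (x : V) :
    up H x = H ⊓ up G x := by
  ext y
  constructor
  · rintro ⟨h1, h2⟩
    exact ⟨h1, hHG h1, (typeLE_sub hHG hm hmH).mp h2⟩
  · rintro ⟨h1, h2⟩
    exact ⟨h1, (typeLE_sub hHG hm hmH).mpr h2.2⟩

theorem span_sub (hHG : H ≤ G) (hm : 0 < m) (hmH : ∀ g ∈ G, m • g ∈ H) {P Q : V → Prop}
    (hPQ : ∀ z, P z ↔ Q z) (hsc : ∀ z, P z → P (m • z)) :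
    Submodule.span ℚ {z | z ∈ H ∧ P z} = Submodule.span ℚ {z | z ∈ G ∧ Q z} := by
  apply le_antisymm
  · exact Submodule.span_mono fun z hz => ⟨hHG hz.1, (hPQ z).mp hz.2⟩
  · rw [Submodule.span_le]
    rintro z ⟨hz, hQ⟩
    have hP := (hPQ z).mpr hQ
    have h1 : (m : ℚ)⁻¹ • (m • z) = z := by
      rw [nsmul_eq, smul_smul, inv_mul_cancel₀ (by exact_mod_cast hm.ne'), one_smul]
    rw [← h1]
    exact Submodule.smul_mem _ _ (Submodule.subset_span ⟨hmH z hz, hsc z hP⟩)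

theorem sharp_sub (hHG : H ≤ G) (hm : 0 < m) (hmH : ∀ g ∈ G, m • g ∈ H) (x : V) :
    sharp H x = H ⊓ sharp G x := by
  have hm0 : (m : ℚ) ≠ 0 := by exact_mod_cast hm.ne'
  have h : Submodule.span ℚ {z | z ∈ H ∧ (TypeLE H x H z ∧ ¬ TypeLE H z H x)} =
      Submodule.span ℚ {z | z ∈ G ∧ (TypeLE G x G z ∧ ¬ TypeLE G z G x)} := by
    refine span_sub hHG hm hmH (fun z => by rw [typeLE_sub hHG hm hmH, typeLE_sub hHG hm hmH])
      fun z hz => ?_
    rw [nsmul_eq]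
    refine ⟨hz.1.smul_right _, fun h => hz.2 ?_⟩
    have := h.smul_left (c := (m : ℚ)⁻¹) (inv_ne_zero hm0)
    rwa [smul_smul, inv_mul_cancel₀ hm0, one_smul] at this
  unfold sharp
  rw [h, ← inf_assoc, inf_eq_left.mpr hHG]

theorem notLE_sub (hHG : H ≤ G) (hm : 0 < m) (hmH : ∀ g ∈ G, m • g ∈ H) (x : V) :
    notLE H x = H ⊓ notLE G x := by
  have hm0 : (m : ℚ) ≠ 0 := by exact_mod_cast hm.ne'
  have h : Submodule.span ℚ {z | z ∈ H ∧ ¬ TypeLE H z H x} =
      Submodule.span ℚ {z | z ∈ G ∧ ¬ TypeLE G z G x} := by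
    refine span_sub hHG hm hmH (fun z => by rw [typeLE_sub hHG hm hmH]) fun z hz h => hz ?_
    rw [nsmul_eq] at h
    have := h.smul_left (c := (m : ℚ)⁻¹) (inv_ne_zero hm0)
    rwa [smul_smul, inv_mul_cancel₀ hm0, one_smul] at this
  unfold notLE
  rw [h, ← inf_assoc, inf_eq_left.mpr hHG]

end TypeLE

/-- The elements `g` of `G` with `m • g ∈ C`. -/
def tor (G C : AddSubgroup V) (m : ℕ) : AddSubgroup V :=
  G ⊓ C.comap (nsmulAddMonoidHom (α := V) m)

theorem mem_tor {m : ℕ} {g : V} : g ∈ tor G C m ↔ g ∈ G ∧ m • g ∈ C := Iff.rfl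

/-- the data at a prime -/
structure PD (G C : AddSubgroup V) (p e n' : ℕ) : Prop where
  hG : IsACD G
  hC : IsRegulating G C
  hp : p.Prime
  hn : C.relIndex G = p ^ e * n'
  cop : Nat.Coprime n' p

variable {p e n' : ℕ}

namespace PD

theorem hn0 (D : PD G C p e n') : C.relIndex G ≠ 0 := (D.hC.relIndex_eq D.hG D.hC).2

theorem n'pos (D : PD G C p e n') : 0 < n' := by
  rcases Nat.eq_zero_or_pos n' with h | h
  · exact absurd (by rw [D.hn, h, mul_zero]) D.hn0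
  · exact h

theorem n_smul (D : PD G C p e n') {g : V} (hg : g ∈ G) : (p ^ e * n') • g ∈ C := by
  rw [← D.hn]
  exact (exists_nsmul_mem D.hn0).2 g hg

theorem C_le (D : PD G C p e n') : C ≤ tor G C (p ^ e) := fun c hc =>
  ⟨D.hC.le hc, C.nsmul_mem hc _⟩

theorem tor_le : tor G C (p ^ e) ≤ G := inf_le_left

theorem n'_smul (D : PD G C p e n') : ∀ g ∈ G, n' • g ∈ tor G C (p ^ e) := by
  intro g hg
  refine mem_tor.mpr ⟨G.nsmul_mem hg _, ?_⟩
  rw [smul_smul]
  exact D.n_smul hg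

/-- coefficients -/
theorem coeff (D : PD G C p e n') (k : ℕ) : ∃ a b : ℤ, a * n' + b * (p ^ k : ℕ) = 1 := by
  have : IsCoprime (n' : ℤ) ((p ^ k : ℕ) : ℤ) := by
    rw [Nat.isCoprime_iff_coprime]
    exact D.cop.pow_right k
  exact this

theorem mem_of_pow (D : PD G C p e n') {g : V} (hg : g ∈ G) {k : ℕ}
    (h : p ^ k • g ∈ tor G C (p ^ e)) : g ∈ tor G C (p ^ e) := by
  refine mem_tor.mpr ⟨hg, ?_⟩
  obtain ⟨a, b, hab⟩ := D.coeff k
  have h1 : (p ^ e * n') • g ∈ C := D.n_smul hg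
  have h2 : p ^ e • (p ^ k • g) ∈ C := h.2
  have h3 : p ^ e • g = a • ((p ^ e * n') • g) + b • (p ^ e • (p ^ k • g)) := by
    have : p ^ e • g = (a * n' + b * (p ^ k : ℕ)) • (p ^ e • g) := by rw [hab, one_smul]
    rw [this, add_smul]
    simp only [← natCast_zsmul, smul_smul]
    congr 2
    · push_cast; ring
    · push_cast; ring
  rw [h3]
  exact C.add_mem (C.zsmul_mem h1 a) (C.zsmul_mem h2 b)

theorem relIndex_tor (D : PD G C p e n') : C.relIndex (tor G C (p ^ e)) = p ^ e := by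
  have hfin : Finite (G ⧸ C.addSubgroupOf G) := Nat.finite_of_card_ne_zero D.hn0
  have hcard : Nat.card (G ⧸ C.addSubgroupOf G) = p ^ e * n' := by rw [← D.hn]; rfl
  have h1 := card_ker_nsmul (Q := G ⧸ C.addSubgroupOf G) (e := e) D.hp D.cop (by rw [hcard])
  have h2 : (Nat.card (G ⧸ C.addSubgroupOf G)).factorization p = e := by
    rw [hcard, Nat.factorization_mul (pow_ne_zero _ D.hp.ne_zero) D.n'pos.ne', Finsupp.add_apply,
      D.hp.factorization_pow, Finsupp.single_eq_same,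
      Nat.factorization_eq_zero_of_not_dvd ((D.hp.coprime_iff_not_dvd).mp D.cop.symm), add_zero]
  rw [h2] at h1
  refine Eq.trans ?_ h1
  have h3 : (nsmulAddMonoidHom (α := G ⧸ C.addSubgroupOf G) (p ^ e)).ker =
      ((tor G C (p ^ e)).addSubgroupOf G).map (QuotientAddGroup.mk' (C.addSubgroupOf G)) := by
    ext y
    constructor
    · intro hy
      obtain ⟨⟨z, hz⟩, rfl⟩ := QuotientAddGroup.mk'_surjective _ y
      refine ⟨⟨z, hz⟩, ?_, rfl⟩
      rw [SetLike.mem_coe, AddSubgroup.mem_addSubgroupOf]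
      refine ⟨hz, ?_⟩
      have hy' : p ^ e • (QuotientAddGroup.mk' (C.addSubgroupOf G) ⟨z, hz⟩) = 0 := hy
      rw [← map_nsmul, QuotientAddGroup.mk'_apply, QuotientAddGroup.eq_zero_iff,
        AddSubgroup.mem_addSubgroupOf] at hy'
      exact hy'
    · rintro ⟨⟨z, hz⟩, hz2, rfl⟩
      rw [SetLike.mem_coe, AddSubgroup.mem_addSubgroupOf] at hz2
      change p ^ e • (QuotientAddGroup.mk' (C.addSubgroupOf G) ⟨z, hz⟩) = 0
      rw [← map_nsmul, QuotientAddGroup.mk'_apply, QuotientAddGroup.eq_zero_iff,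
        AddSubgroup.mem_addSubgroupOf]
      exact hz2.2
  rw [h3, ← AddSubgroup.relIndex_ker, QuotientAddGroup.ker_mk',
    AddSubgroup.relIndex_addSubgroupOf tor_le]

theorem relIndex_G (D : PD G C p e n') : (tor G C (p ^ e)).relIndex G = n' := by
  have h := AddSubgroup.relIndex_mul_relIndex C (tor G C (p ^ e)) G D.C_le tor_le
  rw [D.relIndex_tor, D.hn] at h
  exact Nat.eq_of_mul_eq_mul_left (pow_pos D.hp.pos e) h

theorem reg (D : PD G C p e n') : IsACD (tor G C (p ^ e)) ∧ IsRegulating (tor G C (p ^ e)) C := by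
  obtain ⟨J, _, _, b, f, R⟩ := D.hC.exists_ref D.hG
  have R' : Ref (tor G C (p ^ e)) C b f := by
    refine ⟨R.dual, fun g hg => R.expand g (tor_le hg), D.C_le, R.mem, R.coord, ?_⟩
    rw [D.relIndex_tor]
    exact pow_ne_zero _ D.hp.ne_zero
  refine ⟨R'.isACD, R'.isRegulating fun j => ?_⟩
  intro y hy
  rw [up_sub tor_le D.n'pos D.n'_smul] at hy
  obtain ⟨c, hc, s, hs, e1⟩ := AddSubgroup.mem_sup.mp
    (D.hC.up_le_sup (R.bG j) (R.b_ne_zero j) hy.2)
  rw [AddSubgroup.mem_sup]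
  refine ⟨c, hc, s, ?_, e1⟩
  rw [sharp_sub tor_le D.n'pos D.n'_smul]
  refine ⟨?_, hs⟩
  have : s = y - c := by rw [← e1]; abel
  rw [this]
  exact AddSubgroup.sub_mem _ hy.1 (D.C_le hc)

/-- `G = H + p ^ e G` -/
theorem exists_add (D : PD G C p e n') {g : V} (hg : g ∈ G) :
    ∃ h ∈ tor G C (p ^ e), ∃ g' ∈ G, g = h + p ^ e • g' := by
  obtain ⟨a, b, hab⟩ := D.coeff e
  refine ⟨a • (n' • g), AddSubgroup.zsmul_mem _ (D.n'_smul g hg) _, b • g, G.zsmul_mem hg _, ?_⟩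
  have : g = (a * n' + b * (p ^ e : ℕ)) • g := by rw [hab, one_smul]
  conv_lhs => rw [this]
  rw [add_smul]
  simp only [← natCast_zsmul, smul_smul]
  congr 2
  ring

/-- restriction to `H` -/
theorem equiv (D : PD G C p e n') {L : AddSubgroup V}
    (hpL : pm (p ^ e) G ≤ L) : Nonempty ((G ⧸ L.addSubgroupOf G) ≃+
      (tor G C (p ^ e) ⧸ L.addSubgroupOf (tor G C (p ^ e)))) := by
  set H := tor G C (p ^ e) with hH
  set φ : H →+ (G ⧸ L.addSubgroupOf G) :=
    (QuotientAddGroup.mk' (L.addSubgroupOf G)).comp (AddSubgroup.inclusion (tor_le : H ≤ G))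
    with hφ
  have hsurj : Function.Surjective φ := by
    intro y
    obtain ⟨⟨g, hg⟩, rfl⟩ := QuotientAddGroup.mk'_surjective _ y
    obtain ⟨h, hh, g', hg', e1⟩ := D.exists_add hg
    refine ⟨⟨h, hh⟩, ?_⟩
    change QuotientAddGroup.mk' (L.addSubgroupOf G) ⟨h, tor_le hh⟩ =
      QuotientAddGroup.mk' (L.addSubgroupOf G) ⟨g, hg⟩
    rw [QuotientAddGroup.mk'_apply, QuotientAddGroup.mk'_apply, QuotientAddGroup.eq,
      AddSubgroup.mem_addSubgroupOf]
    change -h + g ∈ L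
    have : -h + g = p ^ e • g' := by rw [e1]; abel
    rw [this]
    exact hpL ⟨g', hg', rfl⟩
  have hker : φ.ker = L.addSubgroupOf H := by
    ext ⟨h, hh⟩
    rw [AddMonoidHom.mem_ker, AddSubgroup.mem_addSubgroupOf]
    change QuotientAddGroup.mk' (L.addSubgroupOf G) ⟨h, tor_le hh⟩ = 0 ↔ h ∈ L
    rw [QuotientAddGroup.mk'_apply, QuotientAddGroup.eq_zero_iff, AddSubgroup.mem_addSubgroupOf]
  exact ⟨((QuotientAddGroup.quotientAddEquivOfEq hker).symm.trans
    (QuotientAddGroup.quotientKerEquivOfSurjective φ hsurj)).symm⟩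

theorem relIndex_eq (D : PD G C p e n') {L : AddSubgroup V} (hpL : pm (p ^ e) G ≤ L) :
    L.relIndex (tor G C (p ^ e)) = L.relIndex G := by
  obtain ⟨e1⟩ := D.equiv hpL
  exact (Nat.card_congr e1.toEquiv).symm

/-- full subgroups at `p` -/
structure Good (G : AddSubgroup V) (p e : ℕ) (L : AddSubgroup V) : Prop where
  le : L ≤ G
  pm_le : pm (p ^ e) G ≤ L
  idx : L.relIndex G = p ^ e
  full : ∀ x ∈ G, x ≠ 0 → up G x ≤ L ⊔ sharp G x

theorem good_down (D : PD G C p e n') {L : AddSubgroup V} (hL : Good G p e L) :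
    IsRegulating (tor G C (p ^ e)) (L ⊓ tor G C (p ^ e)) := by
  obtain ⟨h1, h2⟩ := D.reg
  rw [isRegulating_iff_index h1 h2 inf_le_right]
  refine ⟨?_, fun x hx hx0 => ?_⟩
  · rw [AddSubgroup.inf_relIndex_right, D.relIndex_eq hL.pm_le, hL.idx, D.relIndex_tor]
  · intro y hy
    rw [up_sub tor_le D.n'pos D.n'_smul] at hy
    obtain ⟨k, hk, s, hs, e1⟩ := AddSubgroup.mem_sup.mp (hL.full x (tor_le hx) hx0 hy.2)
    obtain ⟨a, b, hab⟩ := D.coeff e
    have hsG := sharp_le hs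
    have hs' : a • (n' • s) ∈ sharp (tor G C (p ^ e)) x := by
      rw [sharp_sub tor_le D.n'pos D.n'_smul]
      exact ⟨AddSubgroup.zsmul_mem _ (D.n'_smul s hsG) _,
        AddSubgroup.zsmul_mem _ (AddSubgroup.nsmul_mem _ hs _) _⟩
    have hs2 : s = a • (n' • s) + p ^ e • (b • s) := by
      have : s = (a * n' + b * (p ^ e : ℕ)) • s := by rw [hab, one_smul]
      conv_lhs => rw [this]
      rw [add_smul]
      simp only [← natCast_zsmul, smul_smul]
      congr 2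
      ring
    rw [AddSubgroup.mem_sup]
    refine ⟨y - a • (n' • s), ⟨?_, ?_⟩, a • (n' • s), hs', by abel⟩
    · have : y - a • (n' • s) = k + p ^ e • (b • s) := by
        rw [← e1]
        nth_rewrite 1 [hs2]
        abel
      rw [this]
      exact AddSubgroup.add_mem _ hk (hL.pm_le ⟨b • s, G.zsmul_mem hsG _, rfl⟩)
    · exact AddSubgroup.sub_mem _ hy.1
        (AddSubgroup.zsmul_mem _ (D.n'_smul s hsG) _)

end PD

end Pool.Agent.Lib.RkP
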