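import Pool.Agent.Lib.RkP.Tor

/-!
# Cyclic regulating quotients and the torsion of the groups `G / G(S)`
-/

namespace Pool.Agent.Lib.RkP

open Pool.Agent.Lib.C8da183 Pool.Agent.Lib.RkQ
open scoped Classical

set_option linter.unusedSectionVars false

variable {V : Type*} [AddCommGroup V] [Module ℚ V]
variable {G C : AddSubgroup V} {J : Type*} [Fintype J] [DecidableEq J] {b : J → V}
  {f : J → V →ₗ[ℚ] ℚ} {p : ℕ}

theorem tor_finite (R : Ref G C b f) (S : Finset V) :
    Finite (AddCommGroup.torsion (G ⧸ (GS G S).addSubgroupOf G)) := by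
  set N : AddSubgroup V := GU G f (upS G b S) with hN
  have hNG : N ≤ G := fun y hy => hy.1
  have hCN : C ⊓ N ≤ GS G S := by
    rintro c ⟨hc, hcN⟩
    rw [R.expand c (R.le hc)]
    refine AddSubgroup.sum_mem _ fun k _ => ?_
    by_cases hk : k ∈ upS G b S
    · exact b_mem_GS R hk (R.coord c hc k)
    · rw [hcN.2 k hk, zero_smul]
      exact AddSubgroup.zero_mem _
  have h0 : (GS G S).relIndex N ≠ 0 := by
    intro h
    have h1 : (C ⊓ N).relIndex N = 0 := AddSubgroup.relIndex_eq_zero_of_le_left hCN h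
    rw [AddSubgroup.inf_relIndex_right] at h1
    exact R.fin (AddSubgroup.relIndex_eq_zero_of_le_right hNG h1)
  set M : AddSubgroup (G ⧸ (GS G S).addSubgroupOf G) :=
    (N.addSubgroupOf G).map (QuotientAddGroup.mk' ((GS G S).addSubgroupOf G)) with hM
  have hfin : Finite M := by
    refine Nat.finite_of_card_ne_zero ?_
    rw [hM, ← AddSubgroup.relIndex_ker, QuotientAddGroup.ker_mk',
      AddSubgroup.relIndex_addSubgroupOf hNG]
    exact h0
  have hle : AddCommGroup.torsion (G ⧸ (GS G S).addSubgroupOf G) ≤ M := by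
    intro y hy
    obtain ⟨m, hm, e⟩ := isOfFinAddOrder_iff_nsmul_eq_zero.mp
      (show IsOfFinAddOrder y from hy)
    obtain ⟨⟨g, hg⟩, rfl⟩ := QuotientAddGroup.mk'_surjective _ y
    refine ⟨⟨g, hg⟩, ?_, rfl⟩
    rw [SetLike.mem_coe, AddSubgroup.mem_addSubgroupOf]
    refine ⟨hg, fun k hk => ?_⟩
    rw [← map_nsmul, QuotientAddGroup.mk'_apply, QuotientAddGroup.eq_zero_iff,
      AddSubgroup.mem_addSubgroupOf] at e
    have e' : m • g ∈ GS G S := e
    by_contra h
    refine hk (coord_GS R e' (k := k) ?_)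
    rw [map_nsmul]
    exact smul_ne_zero hm.ne' h
  exact Finite.of_injective _ (AddSubgroup.inclusion_injective hle)

theorem card_tor_eq (R : Ref G C b f) (hp : p.Prime) (S : Finset V) :
    (nsmulAddMonoidHom (α := AddCommGroup.torsion (G ⧸ (GS G S).addSubgroupOf G)) p).range.index =
      Nat.card {y : G ⧸ (GS G S).addSubgroupOf G // p • y = 0} := by
  have := tor_finite R S
  rw [Iso2.index_eq]
  refine Nat.card_congr
    { toFun := fun x => ⟨x.1, congrArg Subtype.val x.2⟩
      invFun := fun y => ⟨⟨y.1, isOfFinAddOrder_iff_nsmul_eq_zero.mpr ⟨p, hp.pos, y.2⟩⟩,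
        Subtype.ext y.2⟩
      left_inv := fun x => rfl
      right_inv := fun y => rfl }

theorem torCond_one_iff (R : Ref G C b f) : (∀ p, p.Prime → TorCond G p 1) ↔
    ∀ S : Finset V, (∀ x ∈ S, x ∈ G ∧ x ≠ 0) →
      IsAddCyclic (AddCommGroup.torsion (G ⧸ (GS G S).addSubgroupOf G)) := by
  constructor
  · intro h S hS
    have := tor_finite R S
    refine isAddCyclic_of_index_le fun p hp => ?_
    rw [card_tor_eq R hp S]
    have := h p hp S hS
    rwa [pow_one] at this
  · intro h p hp S hS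
    have := tor_finite R S
    rw [pow_one, ← card_tor_eq R hp S]
    exact index_le_of_isAddCyclic (h S hS) hp

end Pool.Agent.Lib.RkP
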